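import Mathlib

/-!
# Averaging for `k`-graphs without `k + 1` vertices spanning all `k`-sets
-/

set_option autoImplicit false
open Finset Filter Topology
open scoped Classical

namespace Pool.Agent.N601.DP

/-- A `k`-graph in which no `k + 1` vertices span all their `k`-sets. -/
def Free {n : ℕ} (k : ℕ) (H : Finset (Finset (Fin n))) : Prop :=
  (∀ e ∈ H, e.card = k) ∧ ∀ S : Finset (Fin n), S.card = k + 1 → ∃ e ⊆ S, e.card = k ∧ e ∉ H

/-- The Turán number. -/
noncomputable def ex (k n : ℕ) : ℕ :=
  sSup {m : ℕ | ∃ H : Finset (Finset (Fin n)), Free k H ∧ H.card = m}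

lemma ex_bdd (k n : ℕ) : BddAbove {m : ℕ | ∃ H : Finset (Finset (Fin n)), Free k H ∧ H.card = m} := by
  refine ⟨Fintype.card (Finset (Fin n)), ?_⟩
  rintro m ⟨H, _, rfl⟩
  exact Finset.card_le_univ H

lemma free_empty (k n : ℕ) : Free k (∅ : Finset (Finset (Fin n))) := by
  refine ⟨fun e he => absurd he (Finset.notMem_empty e), fun S hS => ?_⟩
  obtain ⟨e, he, hc⟩ := Finset.exists_subset_card_eq (show k ≤ S.card by omega)
  exact ⟨e, he, hc, Finset.notMem_empty e⟩

lemma card_le_ex {k n : ℕ} {H : Finset (Finset (Fin n))} (hH : Free k H) : H.card ≤ ex k n :=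
  le_csSup (ex_bdd k n) ⟨H, hH, rfl⟩

lemma exists_ex (k n : ℕ) : ∃ H : Finset (Finset (Fin n)), Free k H ∧ H.card = ex k n := by
  have h : ex k n ∈ {m : ℕ | ∃ H : Finset (Finset (Fin n)), Free k H ∧ H.card = m} :=
    Nat.sSup_mem ⟨0, ⟨∅, free_empty k n, rfl⟩⟩ (ex_bdd k n)
  exact h

/-- The number of `m`-sets containing a given `k`-set. -/
lemma card_supersets {n m : ℕ} (e : Finset (Fin n)) (hm : e.card ≤ m) :
    ((powersetCard m (univ : Finset (Fin n))).filter fun M => e ⊆ M).card =
      (n - e.card).choose (m - e.card) := by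
  have h : ((powersetCard m (univ : Finset (Fin n))).filter fun M => e ⊆ M) =
      (powersetCard (m - e.card) (univ \ e)).image fun T => T ∪ e := by
    ext M
    rw [mem_filter, mem_powersetCard, mem_image]
    constructor
    · rintro ⟨⟨_, hM⟩, he⟩
      refine ⟨M \ e, ?_, Finset.sdiff_union_of_subset he⟩
      rw [mem_powersetCard]
      refine ⟨Finset.sdiff_subset_sdiff (Finset.subset_univ _) (Finset.Subset.refl _), ?_⟩
      rw [Finset.card_sdiff_of_subset he, hM]
    · rintro ⟨T, hT, rfl⟩
      rw [mem_powersetCard] at hT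
      have hd : Disjoint T e := by
        rw [Finset.disjoint_left]
        intro x hx hxe
        exact (mem_sdiff.mp (hT.1 hx)).2 hxe
      refine ⟨⟨Finset.subset_univ _, ?_⟩, Finset.subset_union_right⟩
      rw [Finset.card_union_of_disjoint hd, hT.2]
      omega
  rw [h, Finset.card_image_of_injOn, Finset.card_powersetCard, Finset.card_sdiff_of_subset
    (Finset.subset_univ _), Finset.card_univ, Fintype.card_fin]
  intro T hT T' hT' hTT
  rw [Finset.mem_coe, mem_powersetCard] at hT hT'
  have hdis : ∀ {T : Finset (Fin n)}, T ⊆ univ \ e → Disjoint T e := by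
    intro T hT
    rw [Finset.disjoint_left]
    intro x hx hxe
    exact (mem_sdiff.mp (hT hx)).2 hxe
  have h1 : (T ∪ e) \ e = T := Finset.union_sdiff_cancel_right (hdis hT.1)
  have h2 : (T' ∪ e) \ e = T' := Finset.union_sdiff_cancel_right (hdis hT'.1)
  simp only at hTT
  rw [← h1, ← h2, hTT]

/-- A family without a full `(k + 1)`-set inside `M` has at most `ex k m` members inside `M`. -/
lemma restrict {k n m : ℕ} {L : Finset (Finset (Fin n))} (hL : ∀ e ∈ L, e.card = k)
    {M : Finset (Fin n)} (hM : M.card = m)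
    (hF : ∀ S ⊆ M, S.card = k + 1 → ∃ e ⊆ S, e.card = k ∧ e ∉ L) :
    (L.filter fun e => e ⊆ M).card ≤ ex k m := by
  set g : Fin m ↪ Fin n := (M.orderEmbOfFin hM).toEmbedding with hg
  have hrange : (univ : Finset (Fin m)).map g = M := by
    rw [hg]
    exact Finset.map_orderEmbOfFin_univ M hM
  set H' : Finset (Finset (Fin m)) := univ.filter fun e' => e'.map g ∈ L with hH'
  have hfree : Free k H' := by
    refine ⟨fun e he => ?_, fun S hS => ?_⟩
    · have := hL _ (mem_filter.mp he).2
      rwa [Finset.card_map] at this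
    · obtain ⟨e, heS, hek, heL⟩ := hF (S.map g) (by
        rw [← hrange]
        exact Finset.map_subset_map.mpr (Finset.subset_univ _)) (by rw [Finset.card_map, hS])
      obtain ⟨u, huS, rfl⟩ := Finset.subset_map_iff.mp heS
      refine ⟨u, huS, by rwa [Finset.card_map] at hek, fun hu => heL (mem_filter.mp hu).2⟩
  have hsub : (L.filter fun e => e ⊆ M) ⊆ H'.image fun e' => e'.map g := by
    intro e he
    rw [mem_filter] at he
    obtain ⟨heL, heM⟩ := he
    rw [← hrange] at heM
    obtain ⟨u, _, rfl⟩ := Finset.subset_map_iff.mp heM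
    rw [mem_image]
    exact ⟨u, mem_filter.mpr ⟨mem_univ _, heL⟩, rfl⟩
  exact (Finset.card_le_card hsub).trans (Finset.card_image_le.trans (card_le_ex hfree))

/-- The full `(k + 1)`-sets. -/
noncomputable def copies {n : ℕ} (k : ℕ) (L : Finset (Finset (Fin n))) : Finset (Finset (Fin n)) :=
  (powersetCard (k + 1) univ).filter fun S => ∀ e ⊆ S, e.card = k → e ∈ L

lemma double_count {n m k : ℕ} (hkm : k ≤ m) {L : Finset (Finset (Fin n))}
    (hL : ∀ e ∈ L, e.card = k) :
    ∑ M ∈ powersetCard m (univ : Finset (Fin n)), (L.filter fun e => e ⊆ M).card =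
      L.card * (n - k).choose (m - k) := by
  have h1 : ∀ M : Finset (Fin n), (L.filter fun e => e ⊆ M).card = ∑ e ∈ L, if e ⊆ M then 1 else 0 := by
    intro M
    rw [Finset.card_filter]
  rw [Finset.sum_congr rfl fun M _ => h1 M, Finset.sum_comm]
  have h2 : ∀ e ∈ L, ∑ M ∈ powersetCard m (univ : Finset (Fin n)), (if e ⊆ M then 1 else 0) =
      (n - k).choose (m - k) := by
    intro e he
    rw [← Finset.card_filter, card_supersets e (by rw [hL e he]; exact hkm), hL e he]
  rw [Finset.sum_congr rfl h2, Finset.sum_const, smul_eq_mul]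

/-- **Supersaturation.** -/
theorem supersat {n m k : ℕ} (hkm : k + 1 ≤ m) (hmn : m ≤ n) {L : Finset (Finset (Fin n))}
    (hL : ∀ e ∈ L, e.card = k) :
    (L.card : ℝ) / (n.choose k : ℝ) ≤ (ex k m : ℝ) / (m.choose k : ℝ) +
      (m.choose (k + 1) : ℝ) * ((copies k L).card : ℝ) / (n.choose (k + 1) : ℝ) := by
  have h1 := double_count (m := m) (by omega) hL
  have h2 : ∀ M ∈ powersetCard m (univ : Finset (Fin n)), (L.filter fun e => e ⊆ M).card ≤
      ex k m + m.choose k * ((copies k L).filter fun S => S ⊆ M).card := by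
    intro M hM
    rw [mem_powersetCard] at hM
    rcases Nat.eq_zero_or_pos ((copies k L).filter fun S => S ⊆ M).card with h0 | h0
    · rw [h0, mul_zero, add_zero]
      refine restrict hL hM.2 fun S hSM hS => ?_
      by_contra hcon
      push Not at hcon
      have : S ∈ (copies k L).filter fun S => S ⊆ M := by
        rw [mem_filter, copies, mem_filter, mem_powersetCard]
        exact ⟨⟨⟨Finset.subset_univ _, hS⟩, hcon⟩, hSM⟩
      rw [Finset.card_eq_zero] at h0
      rw [h0] at this
      exact absurd this (Finset.notMem_empty _)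
    · have h3 : (L.filter fun e => e ⊆ M).card ≤ m.choose k := by
        have : (L.filter fun e => e ⊆ M) ⊆ powersetCard k M := by
          intro e he
          rw [mem_filter] at he
          rw [mem_powersetCard]
          exact ⟨he.2, hL e he.1⟩
        have h := Finset.card_le_card this
        rwa [Finset.card_powersetCard, hM.2] at h
      calc (L.filter fun e => e ⊆ M).card ≤ m.choose k * 1 := by rw [mul_one]; exact h3
        _ ≤ m.choose k * ((copies k L).filter fun S => S ⊆ M).card := Nat.mul_le_mul_left _ h0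
        _ ≤ _ := Nat.le_add_left _ _
  have h3 := Finset.sum_le_sum h2
  rw [h1, Finset.sum_add_distrib, Finset.sum_const, Finset.card_powersetCard, Finset.card_univ,
    Fintype.card_fin, smul_eq_mul, ← Finset.mul_sum,
    double_count (m := m) hkm (L := copies k L) (k := k + 1) (fun e he =>
      (mem_powersetCard.mp (mem_filter.mp he).1).2)] at h3
  have c1 : n.choose m * m.choose k = n.choose k * (n - k).choose (m - k) :=
    Nat.choose_mul (by omega)
  have c2 : n.choose m * m.choose (k + 1) = n.choose (k + 1) * (n - (k + 1)).choose (m - (k + 1)) :=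
    Nat.choose_mul hkm
  have p1 : (0 : ℝ) < n.choose m := by exact_mod_cast Nat.choose_pos hmn
  have p2 : (0 : ℝ) < n.choose k := by exact_mod_cast Nat.choose_pos (by omega)
  have p3 : (0 : ℝ) < n.choose (k + 1) := by exact_mod_cast Nat.choose_pos (by omega)
  have p4 : (0 : ℝ) < m.choose k := by exact_mod_cast Nat.choose_pos (by omega)
  have c1' : (n.choose m : ℝ) * m.choose k = n.choose k * (n - k).choose (m - k) := by
    exact_mod_cast c1
  have c2' : (n.choose m : ℝ) * m.choose (k + 1) =
      n.choose (k + 1) * (n - (k + 1)).choose (m - (k + 1)) := by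
    exact_mod_cast c2
  have h4 : (L.card : ℝ) * (n - k).choose (m - k) ≤ (n.choose m : ℝ) * ex k m +
      m.choose k * ((copies k L).card * (n - (k + 1)).choose (m - (k + 1))) := by
    exact_mod_cast h3
  have e1 : ((n - k).choose (m - k) : ℝ) = (n.choose m : ℝ) * m.choose k / n.choose k := by
    rw [eq_div_iff p2.ne', c1']
    ring
  have e2 : ((n - (k + 1)).choose (m - (k + 1)) : ℝ) =
      (n.choose m : ℝ) * m.choose (k + 1) / n.choose (k + 1) := by
    rw [eq_div_iff p3.ne', c2']
    ring
  rw [e1, e2] at h4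
  have h5 : (n.choose m : ℝ) * m.choose k * ((L.card : ℝ) / n.choose k) ≤
      (n.choose m : ℝ) * m.choose k * ((ex k m : ℝ) / (m.choose k : ℝ) +
      (m.choose (k + 1) : ℝ) * ((copies k L).card : ℝ) / (n.choose (k + 1) : ℝ)) := by
    calc _ = (L.card : ℝ) * ((n.choose m : ℝ) * m.choose k / n.choose k) := by ring
      _ ≤ _ := h4
      _ = _ := by
        rw [mul_add]
        congr 1
        · rw [mul_div_assoc', mul_assoc, mul_comm (m.choose k : ℝ), ← mul_assoc,
            mul_div_assoc, div_self p4.ne', mul_one]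
        · ring
  exact le_of_mul_le_mul_left h5 (by positivity)

/-- The normalised Turán numbers decrease. -/
lemma ex_anti {n m k : ℕ} (hkm : k + 1 ≤ m) (hmn : m ≤ n) :
    (ex k n : ℝ) / (n.choose k : ℝ) ≤ (ex k m : ℝ) / (m.choose k : ℝ) := by
  obtain ⟨H, hH, hc⟩ := exists_ex k n
  have h := supersat hkm hmn hH.1
  have : copies k H = ∅ := by
    rw [Finset.eq_empty_iff_forall_notMem]
    intro S hS
    rw [copies, mem_filter, mem_powersetCard] at hS
    obtain ⟨e, he, hek, heH⟩ := hH.2 S hS.1.2
    exact heH (hS.2 e he hek)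
  rw [this, hc] at h
  simpa using h

/-- The Turán density. -/
noncomputable def dens (k : ℕ) : ℝ := ⨅ j : ℕ, (ex k (k + 1 + j) : ℝ) / ((k + 1 + j).choose k : ℝ)

lemma dens_bdd (k : ℕ) : BddBelow (Set.range fun j : ℕ =>
    (ex k (k + 1 + j) : ℝ) / ((k + 1 + j).choose k : ℝ)) :=
  ⟨0, by rintro x ⟨j, rfl⟩; positivity⟩

lemma dens_le {k n : ℕ} (hn : k + 1 ≤ n) : dens k ≤ (ex k n : ℝ) / (n.choose k : ℝ) := by
  obtain ⟨j, rfl⟩ := Nat.exists_eq_add_of_le hn
  exact ciInf_le (dens_bdd k) j

lemma dens_nonneg (k : ℕ) : 0 ≤ dens k := le_ciInf fun _ => by positivity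

theorem dens_tendsto (k : ℕ) :
    Tendsto (fun n : ℕ => (ex k n : ℝ) / (n.choose k : ℝ)) atTop (𝓝 (dens k)) := by
  have h : Antitone fun j : ℕ => (ex k (k + 1 + j) : ℝ) / ((k + 1 + j).choose k : ℝ) := by
    intro i j hij
    exact ex_anti (by omega) (by omega)
  have h1 := tendsto_atTop_ciInf h (dens_bdd k)
  have h2 : Tendsto (fun j : ℕ => (ex k (j + (k + 1)) : ℝ) / ((j + (k + 1)).choose k : ℝ)) atTop
      (𝓝 (dens k)) := by
    refine h1.congr fun j => ?_
    rw [add_comm j]
  exact (tendsto_add_atTop_iff_nat (k + 1)).mp h2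

lemma dens_lt_one (k : ℕ) : dens k < 1 := by
  refine lt_of_le_of_lt (dens_le (le_refl (k + 1))) ?_
  obtain ⟨H, hH, hc⟩ := exists_ex k (k + 1)
  have hlt : ex k (k + 1) < (k + 1).choose k := by
    obtain ⟨e, _, hek, heH⟩ := hH.2 univ (by rw [Finset.card_univ, Fintype.card_fin])
    have hsub : insert e H ⊆ powersetCard k univ := by
      intro f hf
      rw [mem_powersetCard]
      rcases mem_insert.mp hf with rfl | hf
      · exact ⟨Finset.subset_univ _, hek⟩
      · exact ⟨Finset.subset_univ _, hH.1 f hf⟩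
    have h := Finset.card_le_card hsub
    rw [Finset.card_insert_of_notMem heH, Finset.card_powersetCard, Finset.card_univ,
      Fintype.card_fin, hc] at h
    omega
  rw [div_lt_one]
  · exact_mod_cast hlt
  · exact_mod_cast Nat.choose_pos (by omega)

end Pool.Agent.N601.DP
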