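import Pool.Agent.N601.DP.A
import Pool.Agent.N601.LP4.B

/-!
# Vertices of almost full degree
-/

set_option autoImplicit false
open Finset Filter Topology
open scoped Classical

namespace Pool.Agent.N601.DP

variable {n : ℕ}

/-- The degree of a vertex. -/
noncomputable def deg (H : Finset (Finset (Fin n))) (v : Fin n) : ℕ := (H.filter fun e => v ∈ e).card

/-- The link of `v`. -/
noncomputable def U (k : ℕ) (H : Finset (Finset (Fin n))) (v : Fin n) : Finset (Finset (Fin n)) :=
  univ.filter fun S => S.card = k + 1 ∧ v ∉ S ∧ insert v S ∈ H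

/-- The link of a pair. -/
noncomputable def P (k : ℕ) (H : Finset (Finset (Fin n))) (v w : Fin n) : Finset (Finset (Fin n)) :=
  univ.filter fun T => T.card = k ∧ v ∉ T ∧ w ∉ T ∧ insert v (insert w T) ∈ H

/-- The members of the link of `v` which contain `w`. -/
noncomputable def cod (k : ℕ) (H : Finset (Finset (Fin n))) (v w : Fin n) : ℕ :=
  ((U k H v).filter fun S => w ∈ S).card

lemma deg_eq {k : ℕ} {H : Finset (Finset (Fin n))} (hH : ∀ e ∈ H, e.card = k + 2) (v : Fin n) :
    deg H v = (U k H v).card := by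
  have h : (H.filter fun e => v ∈ e) = (U k H v).image fun S => insert v S := by
    ext e
    rw [mem_filter, mem_image]
    constructor
    · rintro ⟨he, hv⟩
      refine ⟨e.erase v, ?_, Finset.insert_erase hv⟩
      rw [U, mem_filter]
      refine ⟨mem_univ _, ?_, Finset.notMem_erase v e, by rwa [Finset.insert_erase hv]⟩
      rw [Finset.card_erase_of_mem hv, hH e he]
      rfl
    · rintro ⟨S, hS, rfl⟩
      rw [U, mem_filter] at hS
      exact ⟨hS.2.2.2, Finset.mem_insert_self v S⟩
  rw [deg, h, Finset.card_image_of_injOn]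
  intro S hS T hT hST
  rw [Finset.mem_coe, U, mem_filter] at hS hT
  simp only at hST
  rw [← Finset.erase_insert hS.2.2.1, hST, Finset.erase_insert hT.2.2.1]

lemma cod_le (k : ℕ) (H : Finset (Finset (Fin n))) (v w : Fin n) :
    cod k H v w ≤ (P k H v w).card := by
  unfold cod
  refine Finset.card_le_card_of_injOn (fun S => S.erase w) ?_ ?_
  · intro S hS
    rw [Finset.mem_coe, mem_filter, U, mem_filter] at hS
    obtain ⟨⟨_, hc, hv, hH⟩, hw⟩ := hS
    rw [Finset.mem_coe, P, mem_filter]
    refine ⟨mem_univ _, ?_, fun h => hv (Finset.mem_of_mem_erase h), Finset.notMem_erase w S, ?_⟩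
    · rw [Finset.card_erase_of_mem hw, hc]
      rfl
    · rwa [Finset.insert_erase hw]
  · intro S hS T hT hST
    rw [Finset.mem_coe, mem_filter] at hS hT
    simp only at hST
    rw [← Finset.insert_erase hS.2, hST, Finset.insert_erase hT.2]

lemma cod_self (k : ℕ) (H : Finset (Finset (Fin n))) (v : Fin n) : cod k H v v = 0 := by
  unfold cod
  rw [Finset.card_eq_zero, Finset.filter_eq_empty_iff]
  intro S hS
  rw [U, mem_filter] at hS
  exact hS.2.2.1

lemma P_le (k : ℕ) (H : Finset (Finset (Fin n))) (v w : Fin n) :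
    (P k H v w).card ≤ n.choose k := by
  have : P k H v w ⊆ powersetCard k univ := by
    intro T hT
    rw [P, mem_filter] at hT
    rw [mem_powersetCard]
    exact ⟨Finset.subset_univ _, hT.2.1⟩
  have h := Finset.card_le_card this
  rwa [Finset.card_powersetCard, Finset.card_univ, Fintype.card_fin] at h

lemma U_sub (k : ℕ) (H : Finset (Finset (Fin n))) (v : Fin n) :
    U k H v ⊆ powersetCard (k + 1) univ := by
  intro T hT
  rw [U, mem_filter] at hT
  rw [mem_powersetCard]
  exact ⟨Finset.subset_univ _, hT.2.1⟩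

lemma sum_cod (k : ℕ) (H : Finset (Finset (Fin n))) (v : Fin n) :
    ∑ w : Fin n, cod k H v w = (k + 1) * (U k H v).card := by
  unfold cod
  simp only [Finset.card_filter]
  rw [Finset.sum_comm]
  have : ∀ S ∈ U k H v, ∑ w : Fin n, (if w ∈ S then 1 else 0) = k + 1 := by
    intro S hS
    rw [← Finset.card_filter, Finset.filter_univ_mem]
    exact (mem_powersetCard.mp (U_sub k H v hS)).2
  rw [Finset.sum_congr rfl this, Finset.sum_const, smul_eq_mul, mul_comm]

lemma copies_P {k : ℕ} {H : Finset (Finset (Fin n))} (hH : Free (k + 2) H) {v w : Fin n}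
    (hvw : v ≠ w) : copies k (P k H v w) ⊆
      (powersetCard (k + 1) univ \ U k H v) ∪ (powersetCard (k + 1) univ \ U k H w) := by
  intro S hS
  rw [copies, mem_filter] at hS
  obtain ⟨hSc, hS2⟩ := hS
  rw [mem_union, Finset.mem_sdiff, Finset.mem_sdiff]
  by_contra hcon
  push Not at hcon
  have hv := hcon.1 hSc
  have hw := hcon.2 hSc
  rw [U, mem_filter] at hv hw
  obtain ⟨_, hc, hvS, hvH⟩ := hv
  obtain ⟨_, _, hwS, hwH⟩ := hw
  have hQ : (insert v (insert w S)).card = (k + 2) + 1 := by
    rw [Finset.card_insert_of_notMem, Finset.card_insert_of_notMem hwS, hc]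
    rw [mem_insert, not_or]
    exact ⟨hvw, hvS⟩
  obtain ⟨e, he, hec, heH⟩ := hH.2 _ hQ
  obtain ⟨x, hx, hxe⟩ : ∃ x ∈ insert v (insert w S), x ∉ e := by
    by_contra hc'
    push Not at hc'
    have := Finset.card_le_card (show insert v (insert w S) ⊆ e from hc')
    omega
  have heq : e = (insert v (insert w S)).erase x := by
    refine Finset.eq_of_subset_of_card_le ?_ ?_
    · intro y hy
      rw [mem_erase]
      exact ⟨fun h => hxe (h ▸ hy), he hy⟩
    · rw [Finset.card_erase_of_mem hx, hQ, hec]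
      rfl
  apply heH
  rw [heq]
  rw [mem_insert, mem_insert] at hx
  rcases hx with rfl | rfl | hx
  · rw [Finset.erase_insert (by rw [mem_insert, not_or]; exact ⟨hvw, hvS⟩)]
    exact hwH
  · rw [Finset.erase_insert_of_ne hvw, Finset.erase_insert hwS]
    exact hvH
  · have h1 : S.erase x ∈ P k H v w := hS2 _ (Finset.erase_subset x S) (by
      rw [Finset.card_erase_of_mem hx, hc]; rfl)
    rw [P, mem_filter] at h1
    have hvx : v ≠ x := by
      rintro rfl
      exact hvS hx
    have hwx : w ≠ x := by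
      rintro rfl
      exact hwS hx
    rw [Finset.erase_insert_of_ne hvx, Finset.erase_insert_of_ne hwx]
    exact h1.2.2.2.2

/-- The normalised degree. -/
noncomputable def nd (k : ℕ) (H : Finset (Finset (Fin n))) (v : Fin n) : ℝ :=
  ((k + 1).factorial : ℝ) * (deg H v : ℝ) / (n : ℝ) ^ (k + 1)

lemma P_small {k m : ℕ} (hkm : k + 1 ≤ m) (hmn : m ≤ n) {H : Finset (Finset (Fin n))}
    (hH : Free (k + 2) H) {s : ℝ} (hs1 : s ≤ 1) {v w : Fin n} (hvw : v ≠ w)
    (hv : 1 - s < nd k H v) (hw : 1 - s < nd k H w) :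
    ((P k H v w).card : ℝ) ≤ ((ex k m : ℝ) / (m.choose k : ℝ) + (m.choose (k + 1) : ℝ) * (2 * s)) *
      (n.choose k : ℝ) := by
  have hn0 : (0 : ℝ) < n := by
    have : 0 < n := by omega
    exact_mod_cast this
  have hck : (0 : ℝ) < n.choose k := by exact_mod_cast Nat.choose_pos (by omega)
  have hck1 : (0 : ℝ) < n.choose (k + 1) := by exact_mod_cast Nat.choose_pos (by omega)
  have key : ∀ u : Fin n, 1 - s < nd k H u → (1 - s) * (n.choose (k + 1) : ℝ) ≤ (U k H u).card := by
    intro u hu
    unfold nd at hu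
    rw [deg_eq hH.1 u, lt_div_iff₀ (by positivity)] at hu
    have h1 : (n.choose (k + 1) : ℝ) ≤ (n : ℝ) ^ (k + 1) / (k + 1).factorial :=
      Nat.choose_le_pow_div (k + 1) n
    have hf : (0 : ℝ) < (k + 1).factorial := by exact_mod_cast Nat.factorial_pos _
    calc (1 - s) * (n.choose (k + 1) : ℝ) ≤ (1 - s) * ((n : ℝ) ^ (k + 1) / (k + 1).factorial) :=
          mul_le_mul_of_nonneg_left h1 (by linarith)
      _ ≤ (U k H u).card := by
          rw [mul_div_assoc', div_le_iff₀ hf]
          linarith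
  have hcop : ((copies k (P k H v w)).card : ℝ) ≤ 2 * s * (n.choose (k + 1) : ℝ) := by
    have h1 := (Finset.card_le_card (copies_P hH hvw)).trans (Finset.card_union_le _ _)
    have h2 : ∀ u : Fin n, ((powersetCard (k + 1) (univ : Finset (Fin n)) \ U k H u).card : ℝ) =
        (n.choose (k + 1) : ℝ) - (U k H u).card := by
      intro u
      rw [Finset.cast_card_sdiff (U_sub k H u), Finset.card_powersetCard, Finset.card_univ,
        Fintype.card_fin]
    have h3 : ((copies k (P k H v w)).card : ℝ) ≤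
        ((powersetCard (k + 1) (univ : Finset (Fin n)) \ U k H v).card : ℝ) +
        ((powersetCard (k + 1) (univ : Finset (Fin n)) \ U k H w).card : ℝ) := by
      exact_mod_cast h1
    rw [h2, h2] at h3
    have h4 := key v hv
    have h5 := key w hw
    linarith
  have hss := supersat hkm hmn (L := P k H v w) (fun e he => by
    rw [P, mem_filter] at he
    exact he.2.1)
  rw [div_le_iff₀ hck] at hss
  refine hss.trans (mul_le_mul_of_nonneg_right ?_ hck.le)
  have : (m.choose (k + 1) : ℝ) * ((copies k (P k H v w)).card : ℝ) / (n.choose (k + 1) : ℝ) ≤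
      (m.choose (k + 1) : ℝ) * (2 * s) := by
    rw [mul_div_assoc]
    refine mul_le_mul_of_nonneg_left ?_ (Nat.cast_nonneg _)
    rw [div_le_iff₀ hck1]
    exact hcop
  linarith

/-- First bound for the degrees of the vertices of `B`. -/
lemma nd_le_one {k : ℕ} {H : Finset (Finset (Fin n))} (hH : ∀ e ∈ H, e.card = k + 2)
    (hn : 0 < n) {κ : ℝ} (hκ : 0 ≤ κ) {B : Finset (Fin n)}
    (hB : ∀ v ∈ B, ∀ w ∈ B, v ≠ w → ((P k H v w).card : ℝ) ≤ κ * (n.choose k : ℝ)) {v : Fin n}
    (hv : v ∈ B) : nd k H v ≤ 1 - (B.card : ℝ) / n * (1 - κ) := by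
  have hn0 : (0 : ℝ) < n := by exact_mod_cast hn
  have hc : (n.choose k : ℝ) ≤ (n : ℝ) ^ k / k.factorial := Nat.choose_le_pow_div k n
  have hf : (0 : ℝ) < k.factorial := by exact_mod_cast Nat.factorial_pos _
  have hcod : ∀ w : Fin n, (cod k H v w : ℝ) ≤ (if w ∈ B then κ else 1) * ((n : ℝ) ^ k / k.factorial) := by
    intro w
    split_ifs with hw
    · rcases eq_or_ne v w with rfl | hne
      · rw [cod_self]
        simp only [Nat.cast_zero]
        positivity
      · calc (cod k H v w : ℝ) ≤ (P k H v w).card := by exact_mod_cast cod_le k H v w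
          _ ≤ κ * (n.choose k : ℝ) := hB v hv w hw hne
          _ ≤ _ := mul_le_mul_of_nonneg_left hc hκ
    · rw [one_mul]
      calc (cod k H v w : ℝ) ≤ (P k H v w).card := by exact_mod_cast cod_le k H v w
        _ ≤ (n.choose k : ℝ) := by exact_mod_cast P_le k H v w
        _ ≤ _ := hc
  have hsum : ((k : ℝ) + 1) * (U k H v).card ≤
      ((B.card : ℝ) * κ + ((n : ℝ) - B.card)) * ((n : ℝ) ^ k / k.factorial) := by
    have h1 := sum_cod k H v
    have h2 : ((k : ℝ) + 1) * (U k H v).card = ∑ w : Fin n, (cod k H v w : ℝ) := by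
      exact_mod_cast h1.symm
    rw [h2]
    refine (Finset.sum_le_sum fun w _ => hcod w).trans (le_of_eq ?_)
    rw [← Finset.sum_mul]
    congr 1
    rw [Finset.sum_ite, Finset.sum_const, Finset.sum_const, nsmul_eq_mul, nsmul_eq_mul,
      Finset.filter_univ_mem, mul_one]
    congr 1
    have h3 := Finset.card_filter_add_card_filter_not (s := (univ : Finset (Fin n))) (fun z => z ∈ B)
    rw [Finset.card_univ, Fintype.card_fin, Finset.filter_univ_mem] at h3
    have h4 : (B.card : ℝ) + ((univ.filter fun z => z ∉ B).card : ℝ) = n := by exact_mod_cast h3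
    linarith
  unfold nd
  rw [deg_eq hH v, Nat.factorial_succ, div_le_iff₀ (by positivity)]
  push_cast
  calc ((k : ℝ) + 1) * (k.factorial : ℝ) * ((U k H v).card : ℝ)
      = k.factorial * (((k : ℝ) + 1) * (U k H v).card) := by ring
    _ ≤ k.factorial * (((B.card : ℝ) * κ + ((n : ℝ) - B.card)) * ((n : ℝ) ^ k / k.factorial)) :=
        mul_le_mul_of_nonneg_left hsum hf.le
    _ = _ := by
        field_simp
        ring

/-- Second bound for the degrees of the vertices of `B`. -/
lemma nd_le_two {k : ℕ} {H : Finset (Finset (Fin n))} (hH : ∀ e ∈ H, e.card = k + 2)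
    (hn : 0 < n) {κ : ℝ} (hκ : 0 ≤ κ) {B : Finset (Fin n)}
    (hB : ∀ v ∈ B, ∀ w ∈ B, v ≠ w → ((P k H v w).card : ℝ) ≤ κ * (n.choose k : ℝ)) {v : Fin n}
    (hv : v ∈ B) : nd k H v ≤ (1 - (B.card : ℝ) / n) ^ (k + 1) + (k + 1) * ((B.card : ℝ) / n) * κ := by
  have hn0 : (0 : ℝ) < n := by exact_mod_cast hn
  have hc : (n.choose k : ℝ) ≤ (n : ℝ) ^ k / k.factorial := Nat.choose_le_pow_div k n
  have hf : (0 : ℝ) < k.factorial := by exact_mod_cast Nat.factorial_pos _
  have hf1 : (0 : ℝ) < (k + 1).factorial := by exact_mod_cast Nat.factorial_pos _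
  have hBn : B.card ≤ n := by
    have := Finset.card_le_univ B
    rwa [Fintype.card_fin] at this
  have hsub : U k H v ⊆ powersetCard (k + 1) (univ \ B) ∪ B.biUnion fun w => (U k H v).filter fun S => w ∈ S := by
    intro S hS
    rw [mem_union, mem_powersetCard, mem_biUnion]
    by_cases h : ∃ w ∈ B, w ∈ S
    · obtain ⟨w, hw, hwS⟩ := h
      exact Or.inr ⟨w, hw, mem_filter.mpr ⟨hS, hwS⟩⟩
    · push Not at h
      refine Or.inl ⟨fun x hx => ?_, (mem_powersetCard.mp (U_sub k H v hS)).2⟩
      rw [Finset.mem_sdiff]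
      exact ⟨mem_univ _, fun hxB => h x hxB hx⟩
  have h1 : ((U k H v).card : ℝ) ≤ ((n - B.card).choose (k + 1) : ℝ) + ∑ w ∈ B, (cod k H v w : ℝ) := by
    have h := (Finset.card_le_card hsub).trans ((Finset.card_union_le _ _).trans
      (Nat.add_le_add_left Finset.card_biUnion_le _))
    rw [Finset.card_powersetCard, Finset.card_sdiff_of_subset (Finset.subset_univ _),
      Finset.card_univ, Fintype.card_fin] at h
    exact_mod_cast h
  have h2 : ∑ w ∈ B, (cod k H v w : ℝ) ≤ (B.card : ℝ) * (κ * ((n : ℝ) ^ k / k.factorial)) := by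
    calc ∑ w ∈ B, (cod k H v w : ℝ) ≤ ∑ _w ∈ B, κ * ((n : ℝ) ^ k / k.factorial) := by
          refine Finset.sum_le_sum fun w hw => ?_
          rcases eq_or_ne v w with rfl | hne
          · rw [cod_self]
            simp only [Nat.cast_zero]
            positivity
          · calc (cod k H v w : ℝ) ≤ (P k H v w).card := by exact_mod_cast cod_le k H v w
              _ ≤ κ * (n.choose k : ℝ) := hB v hv w hw hne
              _ ≤ _ := mul_le_mul_of_nonneg_left hc hκ
      _ = _ := by rw [Finset.sum_const, nsmul_eq_mul]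
  have h3 : ((n - B.card).choose (k + 1) : ℝ) ≤ ((n : ℝ) - B.card) ^ (k + 1) / (k + 1).factorial := by
    have h := Nat.choose_le_pow_div (α := ℝ) (k + 1) (n - B.card)
    rwa [Nat.cast_sub hBn] at h
  unfold nd
  rw [deg_eq hH v, div_le_iff₀ (by positivity)]
  calc ((k + 1).factorial : ℝ) * ((U k H v).card : ℝ)
      ≤ ((k + 1).factorial : ℝ) * (((n : ℝ) - B.card) ^ (k + 1) / (k + 1).factorial +
        (B.card : ℝ) * (κ * ((n : ℝ) ^ k / k.factorial))) :=
        mul_le_mul_of_nonneg_left (by linarith) hf1.le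
    _ = ((n : ℝ) - B.card) ^ (k + 1) + (k + 1) * B.card * κ * (n : ℝ) ^ k := by
        rw [mul_add]
        congr 1
        · field_simp
        · rw [Nat.factorial_succ]
          push_cast
          field_simp
    _ = ((1 - (B.card : ℝ) / n) ^ (k + 1) + (k + 1) * ((B.card : ℝ) / n) * κ) * (n : ℝ) ^ (k + 1) := by
        have e1 : ((n : ℝ) - B.card) ^ (k + 1) = (1 - (B.card : ℝ) / n) ^ (k + 1) * (n : ℝ) ^ (k + 1) := by
          rw [← mul_pow]
          congr 1
          field_simp
        have e2 : ((k : ℝ) + 1) * B.card * κ * (n : ℝ) ^ k =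
            (k + 1) * ((B.card : ℝ) / n) * κ * (n : ℝ) ^ (k + 1) := by
          rw [pow_succ]
          field_simp
        rw [e1, e2]
        ring

lemma bern {b : ℝ} (hb0 : 0 ≤ b) (hb1 : b ≤ 1) (K : ℕ) :
    (1 - b) ^ K ≤ 1 - K * b + (K : ℝ) ^ 2 * b ^ 2 := by
  induction K with
  | zero => simp
  | succ K ih =>
    have h1 : (1 - b) ^ (K + 1) ≤ (1 - b) * (1 - K * b + (K : ℝ) ^ 2 * b ^ 2) := by
      rw [pow_succ, mul_comm]
      exact mul_le_mul_of_nonneg_left ih (by linarith)
    refine h1.trans ?_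
    push_cast
    have hK : (0 : ℝ) ≤ K := Nat.cast_nonneg K
    have h2 : 0 ≤ (K : ℝ) ^ 2 * b ^ 3 := by positivity
    have h3 : 0 ≤ (K : ℝ) * b ^ 2 := by positivity
    nlinarith

/-- **Upper bound** with parameters. -/
theorem upper_par {k m : ℕ} (hkm : k + 1 ≤ m) (hmn : m ≤ n) {H : Finset (Finset (Fin n))}
    (hH : Free (k + 2) H) {s κ η q : ℝ} (hs0 : 0 < s) (hs1 : s ≤ 1) (hη : 0 < η) (hq : 0 < q)
    (hκ : (ex k m : ℝ) / (m.choose k : ℝ) + (m.choose (k + 1) : ℝ) * (2 * s) ≤ κ)
    (hκ1 : κ + η < 1) (hsη : (k + 1) * s ≤ η * (1 - κ)) :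
    ∑ v : Fin n, nd k H v ^ q ≤ n * ((1 - s) ^ q + 1 / (Real.exp 1 * q * ((k + 1) * (1 - κ - η)))) := by
  have hn : 0 < n := by omega
  have hn0 : (0 : ℝ) < n := by exact_mod_cast hn
  have hκ0 : 0 ≤ κ := le_trans (by positivity) hκ
  have hnd0 : ∀ v, 0 ≤ nd k H v := fun v => by unfold nd; positivity
  set B : Finset (Fin n) := univ.filter fun v => 1 - s < nd k H v with hBd
  set b : ℝ := (B.card : ℝ) / n with hb
  have hb0 : 0 ≤ b := by positivity
  have hb1 : b ≤ 1 := by
    rw [hb, div_le_one hn0]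
    have := Finset.card_le_univ B
    rw [Fintype.card_fin] at this
    exact_mod_cast this
  have hBB : ∀ v ∈ B, ∀ w ∈ B, v ≠ w → ((P k H v w).card : ℝ) ≤ κ * (n.choose k : ℝ) := by
    intro v hv w hw hvw
    refine (P_small hkm hmn hH hs1 hvw (mem_filter.mp hv).2 (mem_filter.mp hw).2).trans ?_
    exact mul_le_mul_of_nonneg_right hκ (Nat.cast_nonneg _)
  set c : ℝ := (k + 1) * (1 - κ - η) with hcd
  have hc : 0 < c := by
    have : 0 < 1 - κ - η := by linarith
    positivity
  have hBsum : ∑ v ∈ B, nd k H v ^ q ≤ n * (1 / (Real.exp 1 * q * c)) := by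
    rcases B.eq_empty_or_nonempty with h | ⟨v0, hv0⟩
    · rw [h, Finset.sum_empty]
      positivity
    · have hbs : b * (1 - κ) ≤ s := by
        have h1 := nd_le_one hH.1 hn hκ0 hBB hv0
        have h2 := (mem_filter.mp hv0).2
        rw [← hb] at h1
        linarith
      have hbη : (k + 1) * b ≤ η := by
        have h1 : 0 < 1 - κ := by linarith
        have h2 : ((k : ℝ) + 1) * b * (1 - κ) ≤ η * (1 - κ) := by
          calc ((k : ℝ) + 1) * b * (1 - κ) = (k + 1) * (b * (1 - κ)) := by ring
            _ ≤ (k + 1) * s := mul_le_mul_of_nonneg_left hbs (by positivity)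
            _ ≤ _ := hsη
        exact le_of_mul_le_mul_right h2 h1
      have hφ : ∀ v ∈ B, nd k H v ≤ 1 - c * b := by
        intro v hv
        have h1 := nd_le_two hH.1 hn hκ0 hBB hv
        rw [← hb] at h1
        have h2 := bern hb0 hb1 (k + 1)
        push_cast at h2
        have h3 : ((k : ℝ) + 1) ^ 2 * b ^ 2 ≤ (k + 1) * b * η := by
          have : ((k : ℝ) + 1) ^ 2 * b ^ 2 = (k + 1) * b * ((k + 1) * b) := by ring
          rw [this]
          exact mul_le_mul_of_nonneg_left hbη (by positivity)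
        rw [hcd]
        nlinarith
      have hcb : c * b ≤ 1 := by
        have := (hnd0 v0).trans (hφ v0 hv0)
        linarith
      have hmax := LP4.max_fun (p := q) (x := c * b) hq (by positivity) hcb
      calc ∑ v ∈ B, nd k H v ^ q ≤ ∑ _v ∈ B, (1 - c * b) ^ q :=
            Finset.sum_le_sum fun v hv => Real.rpow_le_rpow (hnd0 v) (hφ v hv) hq.le
        _ = n / c * (c * b * (1 - c * b) ^ q) := by
            rw [Finset.sum_const, nsmul_eq_mul]
            have : (B.card : ℝ) = n * b := by rw [hb]; field_simp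
            rw [this]
            field_simp
        _ ≤ n / c * (1 / (Real.exp 1 * q)) := mul_le_mul_of_nonneg_left hmax (by positivity)
        _ = _ := by field_simp
  have hBc : ∑ v ∈ univ.filter (fun v => ¬ (1 - s < nd k H v)), nd k H v ^ q ≤ n * (1 - s) ^ q := by
    calc _ ≤ ∑ _v ∈ univ.filter (fun v => ¬ (1 - s < nd k H v)), (1 - s) ^ q :=
          Finset.sum_le_sum fun v hv => Real.rpow_le_rpow (hnd0 v)
            (not_lt.mp (mem_filter.mp hv).2) hq.le
      _ ≤ n * (1 - s) ^ q := by
          rw [Finset.sum_const, nsmul_eq_mul]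
          refine mul_le_mul_of_nonneg_right ?_ (Real.rpow_nonneg (by linarith) q)
          have := Finset.card_le_univ (univ.filter (fun v => ¬ (1 - s < nd k H v)))
          rw [Fintype.card_fin] at this
          exact_mod_cast this
  rw [← Finset.sum_filter_add_sum_filter_not univ (fun v => 1 - s < nd k H v), ← hBd]
  calc _ ≤ n * (1 / (Real.exp 1 * q * c)) + n * (1 - s) ^ q := add_le_add hBsum hBc
    _ = _ := by ring

end Pool.Agent.N601.DP
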