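import Pool.Agent.N601.DP.B

/-!
# The upper bound and the construction
-/

set_option autoImplicit false
open Finset Filter Topology
open scoped Classical

namespace Pool.Agent.N601.DP

/-- The constant. -/
noncomputable def cst (k : ℕ) : ℝ := 1 / (Real.exp 1 * ((k + 1) * (1 - dens k)))

/-- **Upper bound.** -/
theorem upper (k : ℕ) {ε : ℝ} (hε : 0 < ε) : ∃ (q₀ : ℝ) (n₀ : ℕ), 1 ≤ q₀ ∧ ∀ q : ℝ, q₀ ≤ q →
    ∀ n : ℕ, n₀ ≤ n → ∀ H : Finset (Finset (Fin n)), Free (k + 2) H →
      q * ∑ v : Fin n, nd k H v ^ q ≤ (cst k + ε) * n := by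
  have hπ := dens_lt_one k
  have hπ0 := dens_nonneg k
  -- choice of `η`
  have hcont : Tendsto (fun η : ℝ => 1 / (Real.exp 1 * ((k + 1) * (1 - dens k - 2 * η)))) (𝓝 0)
      (𝓝 (1 / (Real.exp 1 * ((k + 1) * (1 - dens k - 2 * 0))))) := by
    have h0 : Real.exp 1 * (((k : ℝ) + 1) * (1 - dens k - 2 * 0)) ≠ 0 := by
      have : 0 < 1 - dens k - 2 * 0 := by linarith
      positivity
    refine Tendsto.div tendsto_const_nhds ?_ h0
    refine Tendsto.mul tendsto_const_nhds (Tendsto.mul tendsto_const_nhds ?_)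
    exact tendsto_const_nhds.sub (tendsto_const_nhds.mul tendsto_id)
  have h1 : (1 / (Real.exp 1 * (((k : ℝ) + 1) * (1 - dens k - 2 * 0)))) < cst k + ε / 2 := by
    unfold cst
    rw [mul_zero, sub_zero]
    linarith
  have hev := (hcont.eventually (gt_mem_nhds h1)).and
    (gt_mem_nhds (show (0 : ℝ) < (1 - dens k) / 4 by linarith))
  have hev2 : ∀ᶠ η : ℝ in 𝓝[>] 0, (1 / (Real.exp 1 * ((k + 1) * (1 - dens k - 2 * η))) <
      cst k + ε / 2 ∧ η < (1 - dens k) / 4) ∧ 0 < η :=
    (hev.filter_mono nhdsWithin_le_nhds).and self_mem_nhdsWithin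
  obtain ⟨η, ⟨hη1, hη2⟩, hη0⟩ := hev2.exists
  -- choice of `m`
  have hm := (dens_tendsto k).eventually (gt_mem_nhds (show dens k < dens k + η / 2 by linarith))
  obtain ⟨m, hm1, hm2⟩ := (hm.and (eventually_ge_atTop (k + 1))).exists
  set κ : ℝ := dens k + η with hκ
  have hκ1 : 0 < 1 - κ - η := by rw [hκ]; linarith
  set C : ℝ := (m.choose (k + 1) : ℝ) with hC
  have hC0 : 0 ≤ C := Nat.cast_nonneg _
  set s : ℝ := min 1 (min (η / (4 * (C + 1))) (η * (1 - κ) / (k + 1))) with hs
  have hκ2 : 0 < 1 - κ := by linarith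
  have hs0 : 0 < s := by
    rw [hs]
    refine lt_min one_pos (lt_min (by positivity) (by positivity))
  have hs1 : s ≤ 1 := min_le_left _ _
  have hs2 : s ≤ η / (4 * (C + 1)) := (min_le_right _ _).trans (min_le_left _ _)
  have hs3 : s ≤ η * (1 - κ) / (k + 1) := (min_le_right _ _).trans (min_le_right _ _)
  have hA : (ex k m : ℝ) / (m.choose k : ℝ) + (m.choose (k + 1) : ℝ) * (2 * s) ≤ κ := by
    rw [← hC]
    have : C * (2 * s) ≤ η / 2 := by
      have h2 : C * (2 * s) ≤ (C + 1) * (2 * (η / (4 * (C + 1)))) := by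
        refine mul_le_mul (by linarith) (by linarith) (by positivity) (by positivity)
      refine h2.trans (le_of_eq ?_)
      field_simp
      norm_num
    rw [hκ]
    linarith
  have hB : ((k : ℝ) + 1) * s ≤ η * (1 - κ) := by
    rw [le_div_iff₀ (by positivity)] at hs3
    linarith
  refine ⟨max 1 (4 / (s ^ 2 * ε)), m, le_max_left _ _, fun q hq n hn H hH => ?_⟩
  have hq1 : 1 ≤ q := (le_max_left _ _).trans hq
  have hq2 : 4 / (s ^ 2 * ε) ≤ q := (le_max_right _ _).trans hq
  have hq0 : 0 < q := by linarith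
  have h3 := upper_par (n := n) hm2 hn hH hs0 hs1 hη0 hq0 hA (by linarith) hB
  have hn0 : (0 : ℝ) ≤ n := Nat.cast_nonneg n
  have h4 : q * (1 - s) ^ q ≤ ε / 2 := by
    have h5 : (1 - s) ^ q ≤ Real.exp (-(s * q)) := by
      have h6 : (1 - s) ^ q ≤ Real.exp (-s) ^ q :=
        Real.rpow_le_rpow (by linarith) (by linarith [Real.add_one_le_exp (-s)]) hq0.le
      refine h6.trans (le_of_eq ?_)
      rw [← Real.exp_mul]
      congr 1
      ring
    have h7 : (s * q) ^ 2 / 2 ≤ Real.exp (s * q) := by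
      have := Real.quadratic_le_exp_of_nonneg (show 0 ≤ s * q by positivity)
      have h0 : 0 ≤ s * q := by positivity
      linarith
    have h8 : Real.exp (-(s * q)) ≤ 2 / (s * q) ^ 2 := by
      rw [Real.exp_neg]
      have h9 : (Real.exp (s * q))⁻¹ ≤ ((s * q) ^ 2 / 2)⁻¹ := inv_anti₀ (by positivity) h7
      refine h9.trans (le_of_eq ?_)
      rw [inv_div]
    calc q * (1 - s) ^ q ≤ q * (2 / (s * q) ^ 2) := mul_le_mul_of_nonneg_left (h5.trans h8) hq0.le
      _ = 2 / (s ^ 2 * q) := by field_simp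
      _ ≤ ε / 2 := by
          rw [div_le_iff₀ (by positivity)] at hq2 ⊢
          linarith
  calc q * ∑ v : Fin n, nd k H v ^ q
      ≤ q * (n * ((1 - s) ^ q + 1 / (Real.exp 1 * q * ((k + 1) * (1 - κ - η))))) :=
        mul_le_mul_of_nonneg_left h3 hq0.le
    _ = n * (q * (1 - s) ^ q + 1 / (Real.exp 1 * ((k + 1) * (1 - κ - η)))) := by
        field_simp
    _ ≤ n * (ε / 2 + (cst k + ε / 2)) := by
        refine mul_le_mul_of_nonneg_left (add_le_add h4 ?_) hn0
        have : 1 - κ - η = 1 - dens k - 2 * η := by rw [hκ]; ring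
        rw [this]
        exact hη1.le
    _ = _ := by ring

variable {n : ℕ}

/-- The construction: the `(k + 2)`-sets with exactly one vertex in `B`, and those with exactly two
vertices in `B` and the others forming a member of `F`. -/
noncomputable def con (k : ℕ) (B : Finset (Fin n)) (F : Finset (Finset (Fin n))) :
    Finset (Finset (Fin n)) :=
  univ.filter fun e => e.card = k + 2 ∧
    ((e ∩ B).card = 1 ∨ ((e ∩ B).card = 2 ∧ e \ B ∈ F))

lemma con_free {k : ℕ} (hk : 1 ≤ k) (B : Finset (Fin n)) {F : Finset (Finset (Fin n))}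
    (hF : ∀ S : Finset (Fin n), Disjoint S B → S.card = k + 1 → ∃ e ⊆ S, e.card = k ∧ e ∉ F) :
    Free (k + 2) (con k B F) := by
  refine ⟨fun e he => (mem_filter.mp he).2.1, fun Q hQ => ?_⟩
  by_contra hcon
  push Not at hcon
  have hall : ∀ x ∈ Q, ((Q.erase x) ∩ B).card = 1 ∨
      (((Q.erase x) ∩ B).card = 2 ∧ (Q.erase x) \ B ∈ F) := by
    intro x hx
    have h := hcon (Q.erase x) (Finset.erase_subset _ _) (by
      rw [Finset.card_erase_of_mem hx, hQ]
      rfl)
    exact (mem_filter.mp h).2.2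
  have hcap : ∀ x, (Q.erase x) ∩ B = (Q ∩ B).erase x := fun x => by
    ext y
    simp only [mem_inter, mem_erase]
    tauto
  have hsd : ∀ x, (Q.erase x) \ B = (Q \ B).erase x := fun x => by
    ext y
    simp only [Finset.mem_sdiff, mem_erase]
    tauto
  have hcard : (Q ∩ B).card + (Q \ B).card = k + 3 := by
    rw [Finset.card_inter_add_card_sdiff, hQ]
  have hex : (Q \ B).Nonempty := by
    by_contra hc
    rw [Finset.not_nonempty_iff_eq_empty] at hc
    rw [hc, Finset.card_empty, add_zero] at hcard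
    obtain ⟨x, hx⟩ := Finset.card_pos.mp (show 0 < (Q ∩ B).card by omega)
    have h := hall x (mem_inter.mp hx).1
    rw [hcap, Finset.card_erase_of_mem hx] at h
    omega
  obtain ⟨x, hx⟩ := hex
  have hx1 := hall x (Finset.mem_sdiff.mp hx).1
  rw [hcap, Finset.erase_eq_of_notMem (fun h => (Finset.mem_sdiff.mp hx).2 (mem_inter.mp h).2)] at hx1
  obtain ⟨y, hy⟩ := Finset.card_pos.mp (show 0 < (Q ∩ B).card by omega)
  have hy1 := hall y (mem_inter.mp hy).1
  rw [hcap, Finset.card_erase_of_mem hy] at hy1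
  have h2 : (Q ∩ B).card = 2 := by omega
  have h3 : (Q \ B).card = k + 1 := by omega
  obtain ⟨e, he, hek, heF⟩ := hF (Q \ B) Finset.sdiff_disjoint h3
  obtain ⟨z, hz, hze⟩ : ∃ z ∈ Q \ B, z ∉ e := by
    by_contra hc
    push Not at hc
    have := Finset.card_le_card (show Q \ B ⊆ e from hc)
    omega
  have heq : e = (Q \ B).erase z := by
    refine Finset.eq_of_subset_of_card_le ?_ ?_
    · intro u hu
      rw [mem_erase]
      exact ⟨fun h => hze (h ▸ hu), he hu⟩
    · rw [Finset.card_erase_of_mem hz, h3, hek]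
      rfl
  have hz1 := hall z (Finset.mem_sdiff.mp hz).1
  rw [hcap, Finset.erase_eq_of_notMem (fun h => (Finset.mem_sdiff.mp hz).2 (mem_inter.mp h).2),
    hsd] at hz1
  rcases hz1 with h | h
  · omega
  · exact heF (heq ▸ h.2)

lemma con_deg {k : ℕ} (B : Finset (Fin n)) {F : Finset (Finset (Fin n))}
    (hF1 : ∀ T ∈ F, T.card = k ∧ Disjoint T B) {v : Fin n} (hv : v ∈ B) :
    (n - B.card).choose (k + 1) + (B.card - 1) * F.card ≤ deg (con k B F) v := by
  set X1 : Finset (Finset (Fin n)) := (powersetCard (k + 1) (univ \ B)).image fun S => insert v S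
    with hX1
  set X2 : Finset (Finset (Fin n)) := ((B.erase v) ×ˢ F).image fun p => insert v (insert p.1 p.2)
    with hX2
  have hcap1 : ∀ S ∈ powersetCard (k + 1) (univ \ B), insert v S ∩ B = {v} ∧ v ∉ S := by
    intro S hS
    rw [mem_powersetCard] at hS
    have hd : ∀ x ∈ S, x ∉ B := fun x hx => (Finset.mem_sdiff.mp (hS.1 hx)).2
    refine ⟨?_, fun h => hd v h hv⟩
    ext x
    simp only [mem_inter, mem_insert, mem_singleton]
    constructor
    · rintro ⟨rfl | hx, hxB⟩
      · rfl
      · exact absurd hxB (hd x hx)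
    · rintro rfl
      exact ⟨Or.inl rfl, hv⟩
  have hcap2 : ∀ p ∈ (B.erase v) ×ˢ F, insert v (insert p.1 p.2) ∩ B = {v, p.1} ∧
      insert v (insert p.1 p.2) \ B = p.2 ∧ v ≠ p.1 ∧ v ∉ p.2 ∧ p.1 ∉ p.2 := by
    intro p hp
    rw [mem_product, mem_erase] at hp
    obtain ⟨⟨hpv, hpB⟩, hpF⟩ := hp
    have hd : ∀ x ∈ p.2, x ∉ B := fun x hx => Finset.disjoint_left.mp (hF1 _ hpF).2 hx
    refine ⟨?_, ?_, hpv.symm, fun h => hd v h hv, fun h => hd _ h hpB⟩
    · ext x
      simp only [mem_inter, mem_insert, mem_singleton]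
      constructor
      · rintro ⟨rfl | rfl | hx, hxB⟩
        · exact Or.inl rfl
        · exact Or.inr rfl
        · exact absurd hxB (hd x hx)
      · rintro (rfl | rfl)
        · exact ⟨Or.inl rfl, hv⟩
        · exact ⟨Or.inr (Or.inl rfl), hpB⟩
    · ext x
      simp only [Finset.mem_sdiff, mem_insert]
      constructor
      · rintro ⟨rfl | rfl | hx, hxB⟩
        · exact absurd hv hxB
        · exact absurd hpB hxB
        · exact hx
      · intro hx
        exact ⟨Or.inr (Or.inr hx), hd x hx⟩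
  have c1 : X1.card = (n - B.card).choose (k + 1) := by
    rw [hX1, Finset.card_image_of_injOn, Finset.card_powersetCard,
      Finset.card_sdiff_of_subset (Finset.subset_univ _), Finset.card_univ, Fintype.card_fin]
    intro S hS T hT hST
    rw [Finset.mem_coe] at hS hT
    simp only at hST
    rw [← Finset.erase_insert (hcap1 S hS).2, hST, Finset.erase_insert (hcap1 T hT).2]
  have c2 : X2.card = (B.card - 1) * F.card := by
    rw [hX2, Finset.card_image_of_injOn, Finset.card_product, Finset.card_erase_of_mem hv]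
    intro p hp p' hp' hpp
    rw [Finset.mem_coe] at hp hp'
    simp only at hpp
    obtain ⟨a1, a2, a3, _, _⟩ := hcap2 p hp
    obtain ⟨b1, b2, b3, _, _⟩ := hcap2 p' hp'
    have e2 : p.2 = p'.2 := by rw [← a2, ← b2, hpp]
    have e1 : p.1 = p'.1 := by
      have : ({v, p.1} : Finset (Fin n)) = {v, p'.1} := by rw [← a1, ← b1, hpp]
      have hmem : p.1 ∈ ({v, p'.1} : Finset (Fin n)) := by
        rw [← this]
        exact mem_insert_of_mem (mem_singleton_self _)
      rw [mem_insert, mem_singleton] at hmem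
      rcases hmem with h | h
      · exact absurd h.symm a3
      · exact h
    exact Prod.ext e1 e2
  have hdis : Disjoint X1 X2 := by
    rw [Finset.disjoint_left]
    intro e h1 h2
    rw [hX1, mem_image] at h1
    rw [hX2, mem_image] at h2
    obtain ⟨S, hS, rfl⟩ := h1
    obtain ⟨p, hp, hpe⟩ := h2
    have e1 := (hcap1 S hS).1
    rw [← hpe, (hcap2 p hp).1] at e1
    have h3 := congrArg Finset.card e1
    rw [Finset.card_pair (hcap2 p hp).2.2.1, Finset.card_singleton] at h3
    omega
  have hsub : X1 ∪ X2 ⊆ (con k B F).filter fun e => v ∈ e := by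
    intro e he
    rw [mem_union] at he
    rcases he with he | he
    · rw [hX1, mem_image] at he
      obtain ⟨S, hS, rfl⟩ := he
      have hSc := (mem_powersetCard.mp hS).2
      rw [mem_filter, con, mem_filter]
      refine ⟨⟨mem_univ _, ?_, Or.inl ?_⟩, mem_insert_self _ _⟩
      · rw [Finset.card_insert_of_notMem (hcap1 S hS).2, hSc]
      · rw [(hcap1 S hS).1, Finset.card_singleton]
    · rw [hX2, mem_image] at he
      obtain ⟨p, hp, rfl⟩ := he
      obtain ⟨a1, a2, a3, a4, a5⟩ := hcap2 p hp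
      have hpF := (mem_product.mp hp).2
      rw [mem_filter, con, mem_filter]
      refine ⟨⟨mem_univ _, ?_, Or.inr ⟨?_, ?_⟩⟩, mem_insert_self _ _⟩
      · rw [Finset.card_insert_of_notMem, Finset.card_insert_of_notMem a5, (hF1 _ hpF).1]
        rw [mem_insert, not_or]
        exact ⟨a3, a4⟩
      · rw [a1, Finset.card_pair a3]
      · rw [a2]
        exact hpF
  calc (n - B.card).choose (k + 1) + (B.card - 1) * F.card = (X1 ∪ X2).card := by
        rw [Finset.card_union_of_disjoint hdis, c1, c2]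
    _ ≤ _ := Finset.card_le_card hsub

/-- An extremal `k`-graph on the vertices outside the first `j`. -/
lemma exists_family (k j : ℕ) (hj : j ≤ n) : ∃ F : Finset (Finset (Fin n)),
    (∀ T ∈ F, T.card = k ∧ Disjoint T (univ.filter fun x : Fin n => x.val < j)) ∧
    (∀ S : Finset (Fin n), Disjoint S (univ.filter fun x : Fin n => x.val < j) →
      S.card = k + 1 → ∃ e ⊆ S, e.card = k ∧ e ∉ F) ∧ F.card = ex k (n - j) := by
  obtain ⟨F0, hF0, hc⟩ := exists_ex k (n - j)
  set g : Fin (n - j) ↪ Fin n := ⟨fun x => ⟨x.val + j, by omega⟩, fun x y h => by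
    have := congrArg Fin.val h
    simp only at this
    ext
    omega⟩ with hg
  have hgv : ∀ x, (g x).val = x.val + j := fun x => rfl
  refine ⟨F0.map ⟨fun T => T.map g, Finset.map_injective g⟩, ?_, ?_, ?_⟩
  · intro T hT
    rw [Finset.mem_map] at hT
    obtain ⟨T0, hT0, rfl⟩ := hT
    refine ⟨?_, ?_⟩
    · simp only [Function.Embedding.coeFn_mk, Finset.card_map]
      exact hF0.1 T0 hT0
    · rw [Finset.disjoint_left]
      intro x hx hxj
      simp only [Function.Embedding.coeFn_mk, Finset.mem_map] at hx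
      obtain ⟨y, _, rfl⟩ := hx
      have h := (mem_filter.mp hxj).2
      rw [hgv] at h
      omega
  · intro S hS hSc
    have hSsub : S ⊆ (univ : Finset (Fin (n - j))).map g := by
      intro x hx
      rw [Finset.mem_map]
      have hxj : ¬ x.val < j := fun h => Finset.disjoint_left.mp hS hx
        (mem_filter.mpr ⟨mem_univ _, h⟩)
      have hxn := x.isLt
      refine ⟨⟨x.val - j, by omega⟩, mem_univ _, ?_⟩
      ext
      rw [hgv]
      simp only
      omega
    obtain ⟨u, _, rfl⟩ := Finset.subset_map_iff.mp hSsub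
    rw [Finset.card_map] at hSc
    obtain ⟨e, he, hek, heF⟩ := hF0.2 u hSc
    refine ⟨e.map g, Finset.map_subset_map.mpr he, by rw [Finset.card_map, hek], fun h => heF ?_⟩
    rw [Finset.mem_map] at h
    obtain ⟨T0, hT0, hT1⟩ := h
    simp only [Function.Embedding.coeFn_mk] at hT1
    rwa [← Finset.map_injective g hT1]
  · rw [Finset.card_map, hc]

end Pool.Agent.N601.DP
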