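import Pool.Agent.N601.DP.C

/-!
# The lower bound
-/

set_option autoImplicit false
open Finset Filter Topology
open scoped Classical

namespace Pool.Agent.N601.DP

lemma card_first {n j : ℕ} (hj : j ≤ n) : (univ.filter fun x : Fin n => x.val < j).card = j := by
  have : (univ.filter fun z : Fin n => z.val < j) = (univ : Finset (Fin j)).map
      (Fin.castLEEmb hj) := by
    ext z
    simp only [mem_filter, mem_univ, true_and, Finset.mem_map]
    constructor
    · intro h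
      exact ⟨⟨z.val, h⟩, by ext; rfl⟩
    · rintro ⟨a, rfl⟩
      exact a.isLt
  rw [this, Finset.card_map, Finset.card_univ, Fintype.card_fin]

/-- The degrees in the construction. -/
lemma con_nd {n k j : ℕ} (hk : 1 ≤ k) (hj : 1 ≤ j) (hjn : j + k + 1 ≤ n) :
    ∃ H : Finset (Finset (Fin n)), Free (k + 2) H ∧ ∀ q : ℝ, 0 ≤ q →
      (j : ℝ) * ((((n : ℝ) - j - k) / n) ^ (k + 1) +
        (k + 1) * (((j : ℝ) - 1) / n) * dens k * (((n : ℝ) - j + 1 - k) / n) ^ k) ^ q ≤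
        ∑ v : Fin n, nd k H v ^ q := by
  obtain ⟨F, hF1, hF2, hFc⟩ := exists_family (n := n) k j (by omega)
  set B : Finset (Fin n) := univ.filter fun x : Fin n => x.val < j with hB
  have hBc : B.card = j := card_first (by omega)
  refine ⟨con k B F, con_free hk B hF2, fun q hq => ?_⟩
  have hn0 : (0 : ℝ) < n := by
    have : 0 < n := by omega
    exact_mod_cast this
  have hn1 : ((n - j : ℕ) : ℝ) = (n : ℝ) - j := Nat.cast_sub (by omega)
  have hcast : ((j + k + 1 : ℕ) : ℝ) ≤ n := by exact_mod_cast hjn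
  push_cast at hcast
  have hj1 : (1 : ℝ) ≤ j := by exact_mod_cast hj
  have hf : (0 : ℝ) < k.factorial := by exact_mod_cast Nat.factorial_pos _
  have hf1 : (0 : ℝ) < (k + 1).factorial := by exact_mod_cast Nat.factorial_pos _
  have hπ := dens_nonneg k
  -- binomials
  have b1 : ((n : ℝ) - j - k) ^ (k + 1) / (k + 1).factorial ≤ ((n - j).choose (k + 1) : ℝ) := by
    have h := Nat.pow_le_choose (α := ℝ) (k + 1) (n - j)
    refine le_trans (le_of_eq ?_) h
    congr 2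
    rw [show n - j + 1 - (k + 1) = n - j - k by omega, Nat.cast_sub (by omega), hn1]
  have b2 : ((n : ℝ) - j + 1 - k) ^ k / k.factorial ≤ ((n - j).choose k : ℝ) := by
    have h := Nat.pow_le_choose (α := ℝ) k (n - j)
    refine le_trans (le_of_eq ?_) h
    congr 2
    rw [Nat.cast_sub (by omega)]
    push_cast
    rw [hn1]
  have b3 : dens k * ((n - j).choose k : ℝ) ≤ (F.card : ℝ) := by
    have h := dens_le (k := k) (n := n - j) (by omega)
    have hpos : (0 : ℝ) < (n - j).choose k := by exact_mod_cast Nat.choose_pos (by omega)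
    rw [le_div_iff₀ hpos] at h
    rw [hFc]
    exact h
  have hdeg : ∀ v ∈ B, (((n : ℝ) - j - k) / n) ^ (k + 1) +
        (k + 1) * (((j : ℝ) - 1) / n) * dens k * (((n : ℝ) - j + 1 - k) / n) ^ k ≤
        nd k (con k B F) v := by
    intro v hv
    have h := con_deg B hF1 hv
    rw [hBc] at h
    have h' : ((n - j).choose (k + 1) : ℝ) + ((j : ℝ) - 1) * F.card ≤ (deg (con k B F) v : ℝ) := by
      have : (((n - j).choose (k + 1) + (j - 1) * F.card : ℕ) : ℝ) ≤ (deg (con k B F) v : ℝ) := by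
        exact_mod_cast h
      push_cast [Nat.cast_sub hj] at this
      exact this
    unfold nd
    rw [le_div_iff₀ (by positivity)]
    have h2 : ((k + 1).factorial : ℝ) * (((n : ℝ) - j - k) ^ (k + 1) / (k + 1).factorial +
        ((j : ℝ) - 1) * (dens k * (((n : ℝ) - j + 1 - k) ^ k / k.factorial))) ≤
        ((k + 1).factorial : ℝ) * (deg (con k B F) v : ℝ) := by
      refine mul_le_mul_of_nonneg_left ?_ hf1.le
      refine le_trans (add_le_add b1 (mul_le_mul_of_nonneg_left ?_ (by linarith))) h'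
      exact (mul_le_mul_of_nonneg_left b2 hπ).trans b3
    refine le_trans (le_of_eq ?_) h2
    rw [Nat.factorial_succ]
    push_cast
    rw [div_pow, div_pow, pow_succ (n : ℝ) k]
    field_simp
  have hx0 : 0 ≤ (((n : ℝ) - j - k) / n) ^ (k + 1) +
        (k + 1) * (((j : ℝ) - 1) / n) * dens k * (((n : ℝ) - j + 1 - k) / n) ^ k := by
    have h1 : 0 ≤ ((n : ℝ) - j - k) / n := div_nonneg (by linarith) hn0.le
    have h2 : 0 ≤ ((j : ℝ) - 1) / n := div_nonneg (by linarith) hn0.le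
    have h3 : 0 ≤ ((n : ℝ) - j + 1 - k) / n := div_nonneg (by linarith) hn0.le
    positivity
  calc _ = ∑ _v ∈ B, ((((n : ℝ) - j - k) / n) ^ (k + 1) +
        (k + 1) * (((j : ℝ) - 1) / n) * dens k * (((n : ℝ) - j + 1 - k) / n) ^ k) ^ q := by
        rw [Finset.sum_const, nsmul_eq_mul, hBc]
    _ ≤ ∑ v ∈ B, nd k (con k B F) v ^ q :=
        Finset.sum_le_sum fun v hv => Real.rpow_le_rpow hx0 (hdeg v hv) hq
    _ ≤ _ := Finset.sum_le_sum_of_subset_of_nonneg (Finset.subset_univ _) fun v _ _ =>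
        Real.rpow_nonneg (by unfold nd; positivity) q

/-- The limit function of the construction. -/
noncomputable def psi (k : ℕ) (β : ℝ) : ℝ := (1 - β) ^ (k + 1) + (k + 1) * β * dens k * (1 - β) ^ k

lemma lower_beta {k : ℕ} (hk : 1 ≤ k) {β q c : ℝ} (hβ0 : 0 < β) (hβ1 : β < 1) (hq : 0 < q)
    (hc : c < β * psi k β ^ q) : ∃ N : ℕ, ∀ n : ℕ, N ≤ n → ∃ H : Finset (Finset (Fin n)),
      Free (k + 2) H ∧ c * n < ∑ v : Fin n, nd k H v ^ q := by
  have t1 : Tendsto (fun n : ℕ => ((⌊β * n⌋₊ : ℕ) : ℝ) / n) atTop (𝓝 β) :=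
    (tendsto_nat_floor_mul_div_atTop (R := ℝ) (a := β) hβ0.le).comp tendsto_natCast_atTop_atTop
  have t0 : Tendsto (fun n : ℕ => (1 : ℝ) / n) atTop (𝓝 0) := tendsto_one_div_atTop_nhds_zero_nat
  set J : ℕ → ℝ := fun n => ((⌊β * n⌋₊ : ℕ) : ℝ) / n with hJ
  have t2 : Tendsto (fun n : ℕ => J n * ((1 - J n - k * (1 / (n : ℝ))) ^ (k + 1) +
        (k + 1) * (J n - 1 / (n : ℝ)) * dens k * (1 - J n + 1 / (n : ℝ) - k * (1 / (n : ℝ))) ^ k) ^ q) atTop
        (𝓝 (β * ((1 - β - k * 0) ^ (k + 1) +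
        (k + 1) * (β - 0) * dens k * (1 - β + 0 - k * 0) ^ k) ^ q)) := by
    refine t1.mul (Tendsto.rpow_const (Tendsto.add (Tendsto.pow ?_ _) (Tendsto.mul (Tendsto.mul
      (Tendsto.mul tendsto_const_nhds (t1.sub t0)) tendsto_const_nhds) (Tendsto.pow ?_ _)))
      (Or.inr hq.le))
    · exact (tendsto_const_nhds.sub t1).sub (tendsto_const_nhds.mul t0)
    · exact ((tendsto_const_nhds.sub t1).add t0).sub (tendsto_const_nhds.mul t0)
  have e0 : β * ((1 - β - k * 0) ^ (k + 1) +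
        (k + 1) * (β - 0) * dens k * (1 - β + 0 - k * 0) ^ k) ^ q = β * psi k β ^ q := by
    unfold psi
    simp
  rw [e0] at t2
  have hev := t2.eventually (lt_mem_nhds hc)
  -- sizes
  have hJ1 : ∀ᶠ n : ℕ in atTop, J n < (1 + β) / 2 := t1.eventually (gt_mem_nhds (by linarith))
  have hJ2 : ∀ᶠ n : ℕ in atTop, β / 2 < J n := t1.eventually (lt_mem_nhds (by linarith))
  have hbig : ∀ᶠ n : ℕ in atTop, ((k : ℝ) + 1) / ((1 - β) / 2) < n :=
    (tendsto_natCast_atTop_atTop (R := ℝ)).eventually (eventually_gt_atTop _)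
  have hbig2 : ∀ᶠ n : ℕ in atTop, 1 / (β / 2) < (n : ℝ) :=
    (tendsto_natCast_atTop_atTop (R := ℝ)).eventually (eventually_gt_atTop _)
  have hall := ((hev.and hJ1).and (hJ2.and (hbig.and hbig2)))
  rw [eventually_atTop] at hall
  obtain ⟨N, hN⟩ := hall
  refine ⟨max N 1, fun n hn => ?_⟩
  have hn1 : 1 ≤ n := (le_max_right _ _).trans hn
  have hn0 : (0 : ℝ) < n := by
    have : 0 < n := by omega
    exact_mod_cast this
  obtain ⟨⟨h1, h2⟩, h3, h4, h5⟩ := hN n ((le_max_left _ _).trans hn)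
  set j : ℕ := ⌊β * n⌋₊ with hj
  have hJn : J n = (j : ℝ) / n := rfl
  rw [hJn] at h1 h2 h3
  have hj1 : 1 ≤ j := by
    rw [lt_div_iff₀ hn0] at h3
    rw [div_lt_iff₀ (by positivity)] at h5
    have : (1 : ℝ) < j := by linarith
    exact_mod_cast this.le
  have hjn : j + k + 1 ≤ n := by
    rw [div_lt_iff₀ hn0] at h2
    rw [div_lt_iff₀ (by linarith)] at h4
    have : (j : ℝ) + k + 1 ≤ n := by nlinarith
    exact_mod_cast this
  obtain ⟨H, hH, hsum⟩ := con_nd hk hj1 hjn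
  refine ⟨H, hH, lt_of_lt_of_le ?_ (hsum q hq.le)⟩
  have e1 : (1 - (j : ℝ) / n - k * (1 / (n : ℝ))) = ((n : ℝ) - j - k) / n := by
    field_simp
  have e2 : ((j : ℝ) / n - 1 / (n : ℝ)) = ((j : ℝ) - 1) / n := by
    field_simp
  have e3 : (1 - (j : ℝ) / n + 1 / (n : ℝ) - k * (1 / (n : ℝ))) = ((n : ℝ) - j + 1 - k) / n := by
    field_simp
  rw [e1, e2, e3] at h1
  have h6 := mul_lt_mul_of_pos_right h1 hn0
  refine lt_of_lt_of_le h6 (le_of_eq ?_)
  have e4 : (j : ℝ) / n * n = j := by field_simp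
  calc _ = ((j : ℝ) / n * n) * ((((n : ℝ) - j - k) / n) ^ (k + 1) +
        (k + 1) * (((j : ℝ) - 1) / n) * dens k * (((n : ℝ) - j + 1 - k) / n) ^ k) ^ q := by ring
    _ = _ := by rw [e4]

/-- **Lower bound.** -/
theorem lower {k : ℕ} (hk : 1 ≤ k) {ε : ℝ} (hε : 0 < ε) : ∃ q₀ : ℝ, 1 ≤ q₀ ∧ ∀ q : ℝ, q₀ ≤ q →
    ∃ N : ℕ, ∀ n : ℕ, N ≤ n → ∃ H : Finset (Finset (Fin n)), Free (k + 2) H ∧
      (cst k - ε) * n < q * ∑ v : Fin n, nd k H v ^ q := by
  have hπ := dens_lt_one k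
  have hπ0 := dens_nonneg k
  set c0 : ℝ := 1 / ((k + 1) * (1 - dens k)) with hc0
  have hc0p : 0 < c0 := by
    have : 0 < 1 - dens k := by linarith
    positivity
  set D : ℝ := (k + 1) * k * c0 ^ 2 with hD
  have hD0 : 0 ≤ D := by positivity
  have tq : Tendsto (fun q : ℝ => q⁻¹) atTop (𝓝 0) := tendsto_inv_atTop_zero
  have t1 : Tendsto (fun q : ℝ => c0 * Real.exp (-((1 + D * q⁻¹) / (1 - q⁻¹ - D * (q⁻¹) ^ 2)))) atTop
      (𝓝 (c0 * Real.exp (-((1 + D * 0) / (1 - 0 - D * 0 ^ 2))))) := by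
    refine tendsto_const_nhds.mul ((Real.continuous_exp.tendsto _).comp (Tendsto.neg (Tendsto.div ?_ ?_ ?_)))
    · exact tendsto_const_nhds.add (tendsto_const_nhds.mul tq)
    · exact (tendsto_const_nhds.sub tq).sub (tendsto_const_nhds.mul (tq.pow 2))
    · norm_num
  have e1 : c0 * Real.exp (-((1 + D * 0) / (1 - 0 - D * 0 ^ 2))) = cst k := by
    unfold cst
    rw [show -((1 + D * 0) / (1 - 0 - D * 0 ^ 2)) = (-1 : ℝ) by norm_num, Real.exp_neg, hc0]
    have h1 : 0 < 1 - dens k := by linarith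
    field_simp
  rw [e1] at t1
  have hev := t1.eventually (lt_mem_nhds (show cst k - ε < cst k by linarith))
  have t2 : Tendsto (fun q : ℝ => 1 - q⁻¹ - D * (q⁻¹) ^ 2) atTop (𝓝 (1 - 0 - D * 0 ^ 2)) :=
    (tendsto_const_nhds.sub tq).sub (tendsto_const_nhds.mul (tq.pow 2))
  have hev2 := t2.eventually (lt_mem_nhds (show (0 : ℝ) < 1 - 0 - D * 0 ^ 2 by norm_num))
  have hev3 : ∀ᶠ q : ℝ in atTop, c0 < q := eventually_gt_atTop c0
  have hall := (hev.and (hev2.and hev3))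
  rw [eventually_atTop] at hall
  obtain ⟨q1, hq1⟩ := hall
  refine ⟨max q1 1, le_max_right _ _, fun q hq => ?_⟩
  obtain ⟨h1, h2, h3⟩ := hq1 q ((le_max_left _ _).trans hq)
  have hq0 : 0 < q := by
    have := (le_max_right q1 1).trans hq
    linarith
  set β : ℝ := c0 / q with hβ
  have hβ0 : 0 < β := by positivity
  have hβ1 : β < 1 := by rw [hβ, div_lt_one hq0]; exact h3
  set x : ℝ := q⁻¹ + D * (q⁻¹) ^ 2 with hx
  have hx0 : 0 < x := by positivity
  have hx1 : 0 < 1 - x := by rw [hx]; linarith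
  have hpsi : 1 - x ≤ psi k β := by
    unfold psi
    have b1 : 1 - (k + 1) * β ≤ (1 - β) ^ (k + 1) := by
      have := one_add_mul_le_pow (show (-2 : ℝ) ≤ -β by linarith) (k + 1)
      push_cast at this
      have e : (1 - β) = 1 + -β := by ring
      rw [e]
      linarith
    have b2 : 1 - k * β ≤ (1 - β) ^ k := by
      have := one_add_mul_le_pow (show (-2 : ℝ) ≤ -β by linarith) k
      have e : (1 - β) = 1 + -β := by ring
      rw [e]
      linarith
    have b3 : (k + 1) * β * dens k * (1 - k * β) ≤ (k + 1) * β * dens k * (1 - β) ^ k :=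
      mul_le_mul_of_nonneg_left b2 (by positivity)
    have b4 : ((k : ℝ) + 1) * k * β ^ 2 * dens k ≤ (k + 1) * k * β ^ 2 := by
      have : 0 ≤ ((k : ℝ) + 1) * k * β ^ 2 := by positivity
      nlinarith
    have b5 : x = (k + 1) * (1 - dens k) * β + (k + 1) * k * β ^ 2 := by
      rw [hx, hβ, hD, hc0]
      have h1 : 0 < 1 - dens k := by linarith
      field_simp
    nlinarith
  have hlog : Real.exp (-((1 + D * q⁻¹) / (1 - q⁻¹ - D * (q⁻¹) ^ 2))) ≤ psi k β ^ q := by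
    have h4 : (1 - x) ^ q ≤ psi k β ^ q := Real.rpow_le_rpow hx1.le hpsi hq0.le
    refine le_trans ?_ h4
    rw [Real.rpow_def_of_pos hx1]
    refine Real.exp_le_exp.mpr ?_
    have h5 := Real.one_sub_inv_le_log_of_pos hx1
    have h6 : (1 - (1 - x)⁻¹) * q ≤ Real.log (1 - x) * q := mul_le_mul_of_nonneg_right h5 hq0.le
    refine le_trans (le_of_eq ?_) h6
    have h7 : 1 - q⁻¹ - D * (q⁻¹) ^ 2 = 1 - x := by rw [hx]; ring
    rw [h7]
    have h8 : 1 + D * q⁻¹ = q * x := by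
      rw [hx]
      field_simp
    rw [h8]
    field_simp
    ring
  have hc : (cst k - ε) / q < β * psi k β ^ q := by
    rw [div_lt_iff₀ hq0]
    calc cst k - ε < c0 * Real.exp (-((1 + D * q⁻¹) / (1 - q⁻¹ - D * (q⁻¹) ^ 2))) := h1
      _ ≤ c0 * psi k β ^ q := mul_le_mul_of_nonneg_left hlog hc0p.le
      _ = β * psi k β ^ q * q := by
          rw [hβ]
          field_simp
  obtain ⟨N, hN⟩ := lower_beta hk hβ0 hβ1 hq0 hc
  refine ⟨N, fun n hn => ?_⟩
  obtain ⟨H, hH, hs⟩ := hN n hn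
  refine ⟨H, hH, ?_⟩
  have h9 := mul_lt_mul_of_pos_left hs hq0
  refine lt_of_le_of_lt (le_of_eq ?_) h9
  field_simp

end Pool.Agent.N601.DP
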