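import Pool.Agent.N601.DP.D

/-!
# Explicit values and the equivalence with Turán's conjecture
-/

set_option autoImplicit false
open Finset Filter Topology
open scoped Classical

namespace Pool.Agent.N601.DP

lemma ex_one {n : ℕ} : ex 1 n ≤ 1 := by
  obtain ⟨F, hF, hc⟩ := exists_ex 1 n
  rw [← hc]
  by_contra h
  push Not at h
  obtain ⟨e1, he1, e2, he2, hne⟩ := Finset.one_lt_card.mp h
  obtain ⟨x, hx⟩ := Finset.card_eq_one.mp (hF.1 e1 he1)
  obtain ⟨y, hy⟩ := Finset.card_eq_one.mp (hF.1 e2 he2)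
  have hxy : x ≠ y := by
    rintro rfl
    exact hne (hx.trans hy.symm)
  obtain ⟨e, he, hec, heF⟩ := hF.2 {x, y} (Finset.card_pair hxy)
  obtain ⟨z, hz⟩ := Finset.card_eq_one.mp hec
  have hz' : z ∈ ({x, y} : Finset (Fin n)) := he (by rw [hz]; exact mem_singleton_self z)
  rw [mem_insert, mem_singleton] at hz'
  apply heF
  rcases hz' with h | h
  · rw [hz, h, ← hx]; exact he1
  · rw [hz, h, ← hy]; exact he2

lemma dens_one : dens 1 = 0 := by
  refine le_antisymm ?_ (dens_nonneg 1)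
  have t : Tendsto (fun n : ℕ => (1 : ℝ) / n) atTop (𝓝 0) := tendsto_one_div_atTop_nhds_zero_nat
  refine le_of_tendsto_of_tendsto (dens_tendsto 1) t ?_
  filter_upwards [eventually_gt_atTop 0] with n hn
  have hn0 : (0 : ℝ) < n := by exact_mod_cast hn
  rw [Nat.choose_one_right]
  have : (ex 1 n : ℝ) ≤ 1 := by exact_mod_cast ex_one
  gcongr

/-- Mantel's theorem for families of pairs. -/
lemma mantel {n : ℕ} {F : Finset (Finset (Fin n))} (hF : Free 2 F) : 4 * F.card ≤ n ^ 2 := by
  let G : SimpleGraph (Fin n) :=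
    { Adj := fun x y => x ≠ y ∧ ({x, y} : Finset (Fin n)) ∈ F
      symm := ⟨fun x y h => ⟨h.1.symm, by rw [Finset.pair_comm]; exact h.2⟩⟩
      loopless := ⟨fun x h => h.1 rfl⟩ }
  have hcf : G.CliqueFree 3 := by
    intro s hs
    obtain ⟨e, he, hec, heF⟩ := hF.2 s hs.card_eq
    obtain ⟨x, y, hxy, rfl⟩ := Finset.card_eq_two.mp hec
    have hx : x ∈ s := he (mem_insert_self _ _)
    have hy : y ∈ s := he (mem_insert_of_mem (mem_singleton_self _))
    exact heF (hs.isClique hx hy hxy).2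
  have h1 := SimpleGraph.CliqueFree.card_edgeFinset_le (r := 2) hcf
  have h2 : F ⊆ G.edgeFinset.image fun z => z.toFinset := by
    intro e he
    obtain ⟨x, y, hxy, rfl⟩ := Finset.card_eq_two.mp (hF.1 e he)
    rw [mem_image]
    refine ⟨s(x, y), ?_, ?_⟩
    · rw [SimpleGraph.mem_edgeFinset, SimpleGraph.mem_edgeSet]
      exact ⟨hxy, he⟩
    · ext z
      simp [Sym2.mem_toFinset]
  have h3 : F.card ≤ G.edgeFinset.card := (Finset.card_le_card h2).trans Finset.card_image_le
  simp only [Fintype.card_fin] at h1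
  have h4 : (n % 2).choose 2 = 0 := Nat.choose_eq_zero_of_lt (Nat.mod_lt _ (by norm_num))
  rw [h4, add_zero] at h1
  have h5 : (n ^ 2 - (n % 2) ^ 2) * (2 - 1) / (2 * 2) ≤ n ^ 2 / 4 := by
    refine Nat.div_le_div_right ?_
    omega
  have h6 : 4 * (n ^ 2 / 4) ≤ n ^ 2 := Nat.mul_div_le _ _
  omega

lemma bip_free {n : ℕ} (B : Finset (Fin n)) :
    Free 2 (univ.filter fun e : Finset (Fin n) => e.card = 2 ∧ (e ∩ B).card = 1) := by
  refine ⟨fun e he => (mem_filter.mp he).2.1, fun S hS => ?_⟩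
  by_contra hcon
  push Not at hcon
  have hall : ∀ x ∈ S, ((S.erase x) ∩ B).card = 1 := by
    intro x hx
    have h := hcon (S.erase x) (Finset.erase_subset _ _) (by
      rw [Finset.card_erase_of_mem hx, hS])
    exact (mem_filter.mp h).2.2
  have hcap : ∀ x, (S.erase x) ∩ B = (S ∩ B).erase x := fun x => by
    ext y
    simp only [mem_inter, mem_erase]
    tauto
  have hcard : (S ∩ B).card + (S \ B).card = 3 := by
    rw [Finset.card_inter_add_card_sdiff, hS]
  rcases (S \ B).eq_empty_or_nonempty with h | ⟨x, hx⟩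
  · rw [h, Finset.card_empty, add_zero] at hcard
    obtain ⟨x, hx⟩ := Finset.card_pos.mp (show 0 < (S ∩ B).card by omega)
    have h1 := hall x (mem_inter.mp hx).1
    rw [hcap, Finset.card_erase_of_mem hx] at h1
    omega
  · have h1 := hall x (Finset.mem_sdiff.mp hx).1
    rw [hcap, Finset.erase_eq_of_notMem (fun h => (Finset.mem_sdiff.mp hx).2 (mem_inter.mp h).2)] at h1
    obtain ⟨y, hy⟩ := Finset.card_pos.mp (show 0 < (S ∩ B).card by omega)
    have h2 := hall y (mem_inter.mp hy).1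
    rw [hcap, Finset.card_erase_of_mem hy] at h2
    omega

lemma bip_card {m : ℕ} : m * m ≤ ex 2 (m + m) := by
  set B : Finset (Fin (m + m)) := univ.filter fun x => x.val < m with hB
  have hBc : B.card = m := card_first (by omega)
  have hBc' : (univ \ B).card = m := by
    rw [Finset.card_sdiff_of_subset (Finset.subset_univ _), Finset.card_univ, Fintype.card_fin, hBc]
    omega
  refine le_trans ?_ (card_le_ex (bip_free B))
  have h1 : ((B ×ˢ (univ \ B)).image fun p => ({p.1, p.2} : Finset (Fin (m + m)))) ⊆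
      univ.filter fun e : Finset (Fin (m + m)) => e.card = 2 ∧ (e ∩ B).card = 1 := by
    intro e he
    rw [mem_image] at he
    obtain ⟨p, hp, rfl⟩ := he
    rw [mem_product, Finset.mem_sdiff] at hp
    have hne : p.1 ≠ p.2 := fun h => hp.2.2 (h ▸ hp.1)
    rw [mem_filter]
    refine ⟨mem_univ _, Finset.card_pair hne, ?_⟩
    rw [Finset.card_eq_one]
    refine ⟨p.1, ?_⟩
    ext z
    simp only [mem_inter, mem_insert, mem_singleton]
    constructor
    · rintro ⟨rfl | rfl, hz⟩
      · rfl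
      · exact absurd hz hp.2.2
    · rintro rfl
      exact ⟨Or.inl rfl, hp.1⟩
  refine le_trans (le_of_eq ?_) (Finset.card_le_card h1)
  rw [Finset.card_image_of_injOn, Finset.card_product, hBc, hBc']
  intro p hp p' hp' hpp
  rw [Finset.mem_coe, mem_product, Finset.mem_sdiff] at hp hp'
  simp only at hpp
  have e1 : p.1 ∈ ({p'.1, p'.2} : Finset (Fin (m + m))) := by
    rw [← hpp]; exact mem_insert_self _ _
  have e2 : p.2 ∈ ({p'.1, p'.2} : Finset (Fin (m + m))) := by
    rw [← hpp]; exact mem_insert_of_mem (mem_singleton_self _)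
  rw [mem_insert, mem_singleton] at e1 e2
  refine Prod.ext ?_ ?_
  · rcases e1 with h | h
    · exact h
    · exact absurd (h ▸ hp.1) hp'.2.2
  · rcases e2 with h | h
    · exact absurd (h ▸ hp'.1) hp.2.2
    · exact h

lemma dens_two : dens 2 = 1 / 2 := by
  refine le_antisymm ?_ ?_
  · have t0 : Tendsto (fun n : ℕ => (1 : ℝ) / n) atTop (𝓝 0) := tendsto_one_div_atTop_nhds_zero_nat
    have t : Tendsto (fun n : ℕ => (1 / 2 : ℝ) / (1 - 1 / n)) atTop (𝓝 (1 / 2 / (1 - 0))) :=
      tendsto_const_nhds.div (tendsto_const_nhds.sub t0) (by norm_num)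
    rw [sub_zero, div_one] at t
    refine le_of_tendsto_of_tendsto (dens_tendsto 2) t ?_
    filter_upwards [eventually_gt_atTop 1] with n hn
    have hn1 : (1 : ℝ) < n := by exact_mod_cast hn
    have hn0 : (0 : ℝ) < n := by linarith
    obtain ⟨F, hF, hc⟩ := exists_ex 2 n
    have h1 : (4 : ℝ) * (ex 2 n : ℝ) ≤ (n : ℝ) ^ 2 := by
      rw [← hc]
      exact_mod_cast mantel hF
    rw [Nat.cast_choose_two]
    have h2 : (1 / 2 : ℝ) / (1 - 1 / n) = (n : ℝ) / (2 * (n - 1)) := by
      have : (n : ℝ) - 1 ≠ 0 := by linarith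
      field_simp
    rw [h2, div_le_div_iff₀ (by nlinarith) (by linarith)]
    nlinarith
  · have t : Tendsto (fun m : ℕ => (ex 2 (m + m) : ℝ) / ((m + m).choose 2 : ℝ)) atTop (𝓝 (dens 2)) :=
      (dens_tendsto 2).comp (tendsto_atTop_mono (fun m : ℕ => Nat.le_add_left m m) tendsto_id)
    refine ge_of_tendsto t ?_
    filter_upwards [eventually_gt_atTop 0] with m hm
    have hm0 : (1 : ℝ) ≤ m := by exact_mod_cast hm
    rw [Nat.cast_choose_two]
    push_cast
    have h1 : (m : ℝ) * m ≤ (ex 2 (m + m) : ℝ) := by exact_mod_cast bip_card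
    rw [le_div_iff₀ (by nlinarith)]
    nlinarith

/-- The limit statement. -/
def IsLimit (k : ℕ) (L : ℝ) : Prop := ∀ ε : ℝ, 0 < ε → ∃ q₀ : ℝ, ∀ q : ℝ, q₀ ≤ q →
  ∃ N : ℕ, ∀ n : ℕ, N ≤ n →
    (∀ H : Finset (Finset (Fin n)), Free (k + 2) H → q * ∑ v : Fin n, nd k H v ^ q ≤ (L + ε) * n) ∧
    ∃ H : Finset (Finset (Fin n)), Free (k + 2) H ∧ (L - ε) * n < q * ∑ v : Fin n, nd k H v ^ q

theorem isLimit_cst {k : ℕ} (hk : 1 ≤ k) : IsLimit k (cst k) := by
  intro ε hε
  obtain ⟨q1, n1, hq1, h1⟩ := upper k hε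
  obtain ⟨q2, hq2, h2⟩ := lower hk hε
  refine ⟨max q1 q2, fun q hq => ?_⟩
  obtain ⟨n2, h3⟩ := h2 q ((le_max_right _ _).trans hq)
  refine ⟨max n1 n2, fun n hn => ⟨fun H hH => ?_, h3 n ((le_max_right _ _).trans hn)⟩⟩
  exact h1 q ((le_max_left _ _).trans hq) n ((le_max_left _ _).trans hn) H hH

lemma isLimit_unique {k : ℕ} {L L' : ℝ} (h : IsLimit k L) (h' : IsLimit k L') : L = L' := by
  have key : ∀ {L L' : ℝ}, IsLimit k L → IsLimit k L' → L ≤ L' := by
    intro L L' h h'
    refine le_of_forall_pos_le_add fun ε hε => ?_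
    obtain ⟨q1, h1⟩ := h (ε / 2) (by linarith)
    obtain ⟨q2, h2⟩ := h' (ε / 2) (by linarith)
    obtain ⟨n1, h3⟩ := h1 (max q1 q2) (le_max_left _ _)
    obtain ⟨n2, h4⟩ := h2 (max q1 q2) (le_max_right _ _)
    set n := max (max n1 n2) 1
    have hn0 : (0 : ℝ) < n := by
      have : 1 ≤ n := le_max_right _ _
      exact_mod_cast this
    obtain ⟨H, hH, h5⟩ := (h3 n ((le_max_left _ _).trans (le_max_left _ _))).2
    have h6 := (h4 n ((le_max_right _ _).trans (le_max_left _ _))).1 H hH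
    have h7 : (L - ε / 2) * n < (L' + ε / 2) * n := lt_of_lt_of_le h5 h6
    have h8 := lt_of_mul_lt_mul_right h7 hn0.le
    linarith
  exact le_antisymm (key h h') (key h' h)

lemma cst_mono_iff {k : ℕ} {x : ℝ} (hx : x < 1) :
    cst k ≤ 1 / (Real.exp 1 * ((k + 1) * (1 - x))) ↔ dens k ≤ x := by
  have h1 := dens_lt_one k
  have h2 : 0 < 1 - x := by linarith
  have h3 : 0 < 1 - dens k := by linarith
  unfold cst
  rw [div_le_div_iff₀ (by positivity) (by positivity), one_mul, one_mul]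
  have he := Real.exp_pos 1
  have hk : (0 : ℝ) < k + 1 := by positivity
  constructor
  · intro h
    have h4 := le_of_mul_le_mul_left h he
    have h5 := le_of_mul_le_mul_left h4 hk
    linarith
  · intro h
    refine mul_le_mul_of_nonneg_left (mul_le_mul_of_nonneg_left (by linarith) hk.le) he.le

lemma cst_inj_iff {k : ℕ} {x : ℝ} (hx : x < 1) :
    cst k = 1 / (Real.exp 1 * ((k + 1) * (1 - x))) ↔ dens k = x := by
  have h1 := dens_lt_one k
  have h2 : 0 < 1 - x := by linarith
  have h3 : 0 < 1 - dens k := by linarith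
  unfold cst
  rw [div_eq_div_iff (by positivity) (by positivity), one_mul, one_mul]
  have he := (Real.exp_pos 1).ne'
  have hk : ((k : ℝ) + 1) ≠ 0 := by positivity
  constructor
  · intro h
    have h4 := mul_left_cancel₀ he h
    have h5 := mul_left_cancel₀ hk h4
    linarith
  · intro h
    rw [h]

/-- Turán's conjecture in the form with the limit. -/
theorem equiv_limit : Tendsto (fun n : ℕ => (ex 3 n : ℝ) / (n.choose 3 : ℝ)) atTop (𝓝 (5 / 9)) ↔
    IsLimit 3 (9 / (16 * Real.exp 1)) := by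
  have hc : (9 : ℝ) / (16 * Real.exp 1) = 1 / (Real.exp 1 * (((3 : ℕ) + 1) * (1 - 5 / 9))) := by
    have he := (Real.exp_pos 1).ne'
    push_cast
    field_simp
    norm_num
  rw [hc]
  constructor
  · intro h
    have h1 : dens 3 = 5 / 9 := tendsto_nhds_unique (dens_tendsto 3) h
    rw [← (cst_inj_iff (k := 3) (x := 5 / 9) (by norm_num)).mpr h1]
    exact isLimit_cst (by norm_num)
  · intro h
    have h1 := isLimit_unique (isLimit_cst (k := 3) (by norm_num)) h
    have h2 := (cst_inj_iff (k := 3) (x := 5 / 9) (by norm_num)).mp h1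
    rw [← h2]
    exact dens_tendsto 3

/-- Turán's conjecture in the covering form. -/
theorem equiv_cover :
    (∀ ε : ℝ, 0 < ε → ∃ N : ℕ, ∀ n : ℕ, N ≤ n → ∀ H : Finset (Finset (Fin n)),
        (∀ e ∈ H, e.card = 3) → (∀ S : Finset (Fin n), S.card = 4 → ∃ e ∈ H, e ⊆ S) →
        (4 / 9 - ε) * ((n.choose 3 : ℕ) : ℝ) ≤ (H.card : ℝ)) ↔
    (∀ ε : ℝ, 0 < ε → ∃ q₀ : ℝ, ∀ q : ℝ, q₀ ≤ q → ∃ N : ℕ, ∀ n : ℕ, N ≤ n →
      ∀ H : Finset (Finset (Fin n)), Free 5 H →
        q * ∑ v : Fin n, nd 3 H v ^ q ≤ (9 / (16 * Real.exp 1) + ε) * n) := by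
  have hc : (9 : ℝ) / (16 * Real.exp 1) = 1 / (Real.exp 1 * (((3 : ℕ) + 1) * (1 - 5 / 9))) := by
    have he := (Real.exp_pos 1).ne'
    push_cast
    field_simp
    norm_num
  rw [hc]
  constructor
  · intro h
    have h1 : dens 3 ≤ 5 / 9 := by
      refine le_of_forall_pos_le_add fun ε hε => ?_
      obtain ⟨N, hN⟩ := h ε hε
      have h2 := dens_le (k := 3) (n := max N 4) (le_max_right _ _)
      refine h2.trans ?_
      set n := max N 4 with hn
      obtain ⟨F, hF, hFc⟩ := exists_ex 3 n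
      have hFsub : F ⊆ powersetCard 3 univ := fun e he =>
        mem_powersetCard.mpr ⟨Finset.subset_univ _, hF.1 e he⟩
      have h3 := hN n (le_max_left _ _) (powersetCard 3 univ \ F)
        (fun e he => (mem_powersetCard.mp (Finset.mem_sdiff.mp he).1).2)
        (fun S hS => by
          obtain ⟨e, he, hec, heF⟩ := hF.2 S hS
          exact ⟨e, Finset.mem_sdiff.mpr ⟨mem_powersetCard.mpr ⟨Finset.subset_univ _, hec⟩, heF⟩, he⟩)
      rw [Finset.cast_card_sdiff hFsub, Finset.card_powersetCard, Finset.card_univ,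
        Fintype.card_fin, hFc] at h3
      have hpos : (0 : ℝ) < n.choose 3 := by
        have : 4 ≤ n := le_max_right _ _
        exact_mod_cast Nat.choose_pos (by omega)
      rw [div_le_iff₀ hpos]
      linarith
    intro ε hε
    obtain ⟨q0, n0, _, h2⟩ := upper 3 hε
    refine ⟨q0, fun q hq => ⟨n0, fun n hn H hH => (h2 q hq n hn H hH).trans ?_⟩⟩
    refine mul_le_mul_of_nonneg_right ?_ (Nat.cast_nonneg _)
    have := (cst_mono_iff (k := 3) (x := 5 / 9) (by norm_num)).mpr h1
    linarith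
  · intro h
    have h1 : cst 3 ≤ 1 / (Real.exp 1 * (((3 : ℕ) + 1) * (1 - 5 / 9))) := by
      refine le_of_forall_pos_le_add fun ε hε => ?_
      obtain ⟨q1, h1⟩ := h (ε / 2) (by linarith)
      obtain ⟨q2, _, h2⟩ := lower (k := 3) (by norm_num) (show 0 < ε / 2 by linarith)
      obtain ⟨n1, h3⟩ := h1 (max q1 q2) (le_max_left _ _)
      obtain ⟨n2, h4⟩ := h2 (max q1 q2) (le_max_right _ _)
      set n := max (max n1 n2) 1
      have hn0 : (0 : ℝ) < n := by
        have : 1 ≤ n := le_max_right _ _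
        exact_mod_cast this
      obtain ⟨H, hH, h5⟩ := h4 n ((le_max_right _ _).trans (le_max_left _ _))
      have h6 := h3 n ((le_max_left _ _).trans (le_max_left _ _)) H hH
      have h8 := lt_of_mul_lt_mul_right (lt_of_lt_of_le h5 h6) hn0.le
      linarith
    have h2 : dens 3 ≤ 5 / 9 := (cst_mono_iff (k := 3) (x := 5 / 9) (by norm_num)).mp h1
    intro ε hε
    have h3 := (dens_tendsto 3).eventually (gt_mem_nhds (show dens 3 < 5 / 9 + ε by linarith))
    obtain ⟨N, hN⟩ := eventually_atTop.mp h3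
    refine ⟨max N 4, fun n hn H hH hcov => ?_⟩
    have h4 := hN n ((le_max_left _ _).trans hn)
    have hn4 : 4 ≤ n := (le_max_right _ _).trans hn
    have hpos : (0 : ℝ) < n.choose 3 := by exact_mod_cast Nat.choose_pos (by omega)
    rw [div_lt_iff₀ hpos] at h4
    have hHsub : H ⊆ powersetCard 3 univ := fun e he =>
      mem_powersetCard.mpr ⟨Finset.subset_univ _, hH e he⟩
    have hfree : Free 3 (powersetCard 3 univ \ H) := by
      refine ⟨fun e he => (mem_powersetCard.mp (Finset.mem_sdiff.mp he).1).2, fun S hS => ?_⟩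
      obtain ⟨e, he, heS⟩ := hcov S hS
      exact ⟨e, heS, hH e he, fun h => (Finset.mem_sdiff.mp h).2 he⟩
    have h5 := card_le_ex hfree
    have h6 : ((powersetCard 3 (univ : Finset (Fin n)) \ H).card : ℝ) ≤ (ex 3 n : ℝ) := by
      exact_mod_cast h5
    rw [Finset.cast_card_sdiff hHsub, Finset.card_powersetCard, Finset.card_univ,
      Fintype.card_fin] at h6
    linarith

end Pool.Agent.N601.DP
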